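import Pool.Agent.H977R2.Main

/-!
Plain definitions of self-avoiding walks on `ℤ^d` and of expectations under the uniform
measure, and transfer to the working definitions in dimension two.
-/

namespace Pool.Agent.H977R2

/-- Two points of `ℤ^d` are neighbours if their difference is plus or minus a unit vector. -/
def Nbr {d : ℕ} (x y : Fin d → ℤ) : Prop :=
  ∃ i : Fin d, y - x = Pi.single i 1 ∨ y - x = -Pi.single i 1

/-- `w` is an `N`-step self-avoiding walk on `ℤ^d` started at the origin. -/
def IsSAW (d N : ℕ) (w : Fin (N + 1) → (Fin d → ℤ)) : Prop :=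
  w 0 = 0 ∧ (∀ i : Fin N, Nbr (w i.castSucc) (w i.succ)) ∧ Function.Injective w

/-- Squared Euclidean norm. -/
noncomputable def nsq {d : ℕ} (x : Fin d → ℤ) : ℝ := ∑ i, (x i : ℝ) ^ 2

/-- Expectation under the uniform probability measure on the `N`-step self-avoiding walks. -/
noncomputable def expect (d N : ℕ) (F : (Fin (N + 1) → (Fin d → ℤ)) → ℝ) : ℝ :=
  (∑ᶠ w ∈ {w | IsSAW d N w}, F w) / ({w | IsSAW d N w}.ncard : ℝ)

/-- Mean-square displacement `⟨|ω(N)|²⟩`. -/
noncomputable def msd (d N : ℕ) : ℝ := expect d N (fun w => nsq (w (Fin.last N)))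

/-- Passing from the working definition to the plain one. -/
def toFin (N : ℕ) (w : ℕ → ℤ × ℤ) : Fin (N + 1) → (Fin 2 → ℤ) := fun i => ![(w i).1, (w i).2]

theorem nbr_iff (p q : ℤ × ℤ) : Nbr ![p.1, p.2] ![q.1, q.2] ↔ Adj p q := by
  unfold Nbr Adj
  rw [Fin.exists_fin_two]
  simp only [funext_iff, Fin.forall_fin_two, Pi.sub_apply, Pi.neg_apply, Matrix.cons_val_zero,
    Matrix.cons_val_one, Pi.single_eq_same, Pi.single_apply]
  simp
  omega

theorem toFin_injOn (N : ℕ) : Set.InjOn (toFin N) (SawSet N : Set (ℕ → ℤ × ℤ)) := by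
  intro w hw v hv h
  rw [Finset.mem_coe, mem_SawSet] at hw hv
  have key : ∀ i, i ≤ N → w i = v i := by
    intro i hi
    have h1 := congrFun h ⟨i, by omega⟩
    simp only [toFin] at h1
    have h2 := congrFun h1 0
    have h3 := congrFun h1 1
    simp at h2 h3
    exact Prod.ext h2 h3
  funext i
  rcases le_or_gt i N with h1 | h1
  · exact key i h1
  · rw [hw.const i h1.le, hv.const i h1.le, key N le_rfl]

theorem isSAW_toFin {N : ℕ} {w : ℕ → ℤ × ℤ} (hw : Saw N w) : IsSAW 2 N (toFin N w) := by
  refine ⟨?_, ?_, ?_⟩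
  · funext k
    fin_cases k <;> simp [toFin, hw.zero]
  · intro i
    have := hw.adj i i.2
    rw [← nbr_iff] at this
    simpa [toFin] using this
  · intro i k h
    have h2 := congrFun h 0
    have h3 := congrFun h 1
    simp [toFin] at h2 h3
    have := hw.inj i k (by omega) (by omega) (Prod.ext h2 h3)
    exact Fin.ext this

theorem isSAW_image (N : ℕ) : {w | IsSAW 2 N w} = toFin N '' (SawSet N : Set (ℕ → ℤ × ℤ)) := by
  ext v
  constructor
  · rintro ⟨h1, h2, h3⟩
    refine ⟨fun i => (v ⟨min i N, by omega⟩ 0, v ⟨min i N, by omega⟩ 1), ?_, ?_⟩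
    · rw [Finset.mem_coe, mem_SawSet]
      have ev : ∀ i : Fin (N + 1), v i = ![v i 0, v i 1] := by
        intro i
        funext k
        fin_cases k <;> simp
      constructor
      · have e : (⟨min 0 N, by omega⟩ : Fin (N + 1)) = 0 := by ext; simp
        rw [e, h1]; rfl
      · intro i hi
        rw [← nbr_iff]
        have := h2 ⟨i, hi⟩
        rw [ev, ev (Fin.succ _)] at this
        have e1 : (⟨min i N, by omega⟩ : Fin (N + 1)) = Fin.castSucc ⟨i, hi⟩ := by
          ext; simp; omega
        have e2 : (⟨min (i + 1) N, by omega⟩ : Fin (N + 1)) = Fin.succ ⟨i, hi⟩ := by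
          ext; simp; omega
        simp only [e1, e2]
        exact this
      · intro i k hi hk heq
        simp only [Prod.mk.injEq] at heq
        have : v ⟨min i N, by omega⟩ = v ⟨min k N, by omega⟩ := by
          rw [ev, ev ⟨min k N, _⟩, heq.1, heq.2]
        have := h3 this
        simp only [Fin.mk.injEq] at this
        omega
      · intro i hi
        have : min i N = min N N := by omega
        simp only [this]
    · funext i k
      have e : (⟨min (i : ℕ) N, by omega⟩ : Fin (N + 1)) = i := by ext; simp; omega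
      fin_cases k <;> simp [toFin, e]
  · rintro ⟨w, hw, rfl⟩
    rw [Finset.mem_coe, mem_SawSet] at hw
    exact isSAW_toFin hw

theorem finsum_saw (N : ℕ) (F : (Fin (N + 1) → (Fin 2 → ℤ)) → ℝ) :
    ∑ᶠ w ∈ {w | IsSAW 2 N w}, F w = ∑ w ∈ SawSet N, F (toFin N w) := by
  rw [isSAW_image, finsum_mem_image (toFin_injOn N), finsum_mem_coe_finset]

theorem ncard_saw (N : ℕ) : {w | IsSAW 2 N w}.ncard = (SawSet N).card := by
  rw [isSAW_image, Set.ncard_image_of_injOn (toFin_injOn N), Set.ncard_coe_finset]

theorem nsq_toFin (N : ℕ) (w : ℕ → ℤ × ℤ) (i : Fin (N + 1)) :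
    nsq (toFin N w i) = (((w i).1 ^ 2 + (w i).2 ^ 2 : ℤ) : ℝ) := by
  simp [nsq, toFin, Fin.sum_univ_two]

theorem msd_two (N : ℕ) : msd 2 N = (endSum N : ℝ) / ((SawSet N).card : ℝ) := by
  unfold msd expect
  rw [finsum_saw, ncard_saw]
  congr 1
  unfold endSum
  rw [Int.cast_sum]
  refine Finset.sum_congr rfl (fun w _ => ?_)
  rw [nsq_toFin]
  simp

/-- There is a straight walk. -/
theorem card_pos (N : ℕ) : 0 < (SawSet N).card := by
  rw [Finset.card_pos]
  refine ⟨fun i => (((min i N : ℕ) : ℤ), 0), ?_⟩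
  rw [mem_SawSet]
  constructor
  · simp
  · intro i hi
    left
    simp only
    refine ⟨?_, trivial⟩
    have : min (i + 1) N = min i N + 1 := by omega
    rw [this]; push_cast; ring
  · intro i k hi hk h
    simp only [Prod.mk.injEq] at h
    omega
  · intro i hi
    have : min i N = min N N := by omega
    simp only [this]

end Pool.Agent.H977R2
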