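import Mathlib

/-!
# Combinatorial lemma for the planar self-avoiding walk (team of helper977, task E)

A finite set of more than `θ ^ T` integers in `[0, Λ ^ T)` contains `s` well separated
'cells', all at the same scale.
-/

namespace Pool.Agent.H977R2

/-- A finite set of integers with at least `n + 2` elements and without a triple `x < y < z`
whose second gap exceeds the first has diameter at least `2 ^ n`. -/
theorem comb_halving (n : ℕ) : ∀ (Y : Finset ℤ) (M : ℤ), n + 2 ≤ Y.card →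
    (∀ x ∈ Y, ∀ y ∈ Y, ∀ z ∈ Y, x < y → y < z → z - y ≤ y - x) →
    M ∈ Y → (∀ y ∈ Y, y ≤ M) → ∃ x ∈ Y, (∀ y ∈ Y, x ≤ y) ∧ x + 2 ^ n ≤ M := by
  induction n with
  | zero =>
    intro Y M hc _ hM hmax
    have hne : Y.Nonempty := ⟨M, hM⟩
    refine ⟨Y.min' hne, Y.min'_mem hne, fun y hy => Y.min'_le y hy, ?_⟩
    by_contra hcon
    have hsub : Y ⊆ {M} := by
      intro y hy
      have h1 := Y.min'_le y hy
      have h2 := hmax y hy
      simp only [pow_zero, not_le] at hcon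
      rw [Finset.mem_singleton]
      omega
    have := Finset.card_le_card hsub
    simp only [Finset.card_singleton] at this
    omega
  | succ n ih =>
    intro Y M hc hno hM hmax
    have hne : Y.Nonempty := ⟨M, hM⟩
    have hmin := Y.min'_mem hne
    set x := Y.min' hne with hx
    have hxle : ∀ y ∈ Y, x ≤ y := fun y hy => Y.min'_le y hy
    have hxM : x ≠ M := by
      intro h
      have hsub : Y ⊆ {M} := by
        intro y hy
        have h1 := hxle y hy
        have h2 := hmax y hy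
        rw [Finset.mem_singleton]
        omega
      have := Finset.card_le_card hsub
      simp only [Finset.card_singleton] at this
      omega
    have hcard : (Y.erase x).card = Y.card - 1 := Finset.card_erase_of_mem hmin
    obtain ⟨y, hy, hyle, hyM⟩ := ih (Y.erase x) M (by omega)
      (fun a ha b hb c hc' => hno a (Finset.mem_of_mem_erase ha) b (Finset.mem_of_mem_erase hb) c
        (Finset.mem_of_mem_erase hc'))
      (Finset.mem_erase.mpr ⟨hxM.symm, hM⟩) (fun y hy => hmax y (Finset.mem_of_mem_erase hy))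
    refine ⟨x, hmin, hxle, ?_⟩
    have hyY := Finset.mem_of_mem_erase hy
    have hxy : x < y := lt_of_le_of_ne (hxle y hyY) (Finset.ne_of_mem_erase hy).symm
    have hpos : (0 : ℤ) < 2 ^ n := by positivity
    have := hno x hmin y hyY M hM hxy (by linarith)
    rw [pow_succ]
    linarith

/-- CombGood quintuples. -/
def CombGood (ea eb0 eb eb' ed : ℤ) : Prop :=
  ea < eb0 ∧ eb0 < eb ∧ eb < eb' ∧ eb' < ed ∧ eb - eb0 < eb' - eb ∧ eb' - eb < eb - ea ∧
    eb' - eb < ed - eb'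

theorem comb_group (A : ℕ) (x : ℤ) (E : Finset ℤ) (hE : ∀ e ∈ E, x ≤ e ∧ e < x + 2 ^ A)
    (hc : 2 * A ^ 2 + 2 * A + 3 ≤ E.card) :
    ∃ ea ∈ E, ∃ eb0 ∈ E, ∃ eb ∈ E, ∃ eb' ∈ E, ∃ ed ∈ E, CombGood ea eb0 eb eb' ed := by
  classical
  have hne : E.Nonempty := Finset.card_pos.mp (by omega)
  set a := E.min' hne with ha
  set d := E.max' hne with hd
  have haE : a ∈ E := E.min'_mem hne
  have hdE : d ∈ E := E.max'_mem hne
  have hale : ∀ e ∈ E, a ≤ e := fun e he => E.min'_le e he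
  have hdle : ∀ e ∈ E, e ≤ d := fun e he => E.le_max' e he
  set F := (E.erase a).erase d with hF
  have hFE : ∀ e ∈ F, e ∈ E ∧ a < e ∧ e < d := by
    intro e he
    have h1 := Finset.mem_of_mem_erase he
    have h2 := Finset.mem_of_mem_erase h1
    exact ⟨h2, lt_of_le_of_ne (hale e h2) (Finset.ne_of_mem_erase h1).symm,
      lt_of_le_of_ne (hdle e h2) (Finset.ne_of_mem_erase he)⟩
  have hFc : 2 * A ^ 2 + 2 * A + 1 ≤ F.card := by
    have h1 : E.card - 1 ≤ (E.erase a).card := Finset.pred_card_le_card_erase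
    have h2 : (E.erase a).card - 1 ≤ F.card := Finset.pred_card_le_card_erase
    omega
  -- classes
  let g : ℤ → Bool × ℕ := fun e => (decide (e - a ≤ d - e), Nat.log 2 (min (e - a) (d - e)).toNat)
  have hg : ∀ e ∈ F, g e ∈ (Finset.univ : Finset Bool) ×ˢ Finset.range A := by
    intro e he
    obtain ⟨heE, h1, h2⟩ := hFE e he
    rw [Finset.mem_product]
    refine ⟨Finset.mem_univ _, ?_⟩
    rw [Finset.mem_range]
    show Nat.log 2 (min (e - a) (d - e)).toNat < A
    have h3 := hE a haE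
    have h4 := hE d hdE
    apply Nat.log_lt_of_lt_pow
    · omega
    · zify
      rw [Int.toNat_of_nonneg (by omega)]
      have : min (e - a) (d - e) ≤ e - a := min_le_left _ _
      have h5 := hE e heE
      omega
  obtain ⟨⟨side, i⟩, _, hcl⟩ := Finset.exists_lt_card_fiber_of_mul_lt_card_of_maps_to (n := A + 1) hg
    (by
      rw [Finset.card_product, Finset.card_univ, Fintype.card_bool, Finset.card_range]
      nlinarith [hFc])
  set Y := F.filter (fun e => g e = (side, i)) with hY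
  have hYF : ∀ e ∈ Y, e ∈ F ∧ g e = (side, i) := fun e he => by
    rw [hY, Finset.mem_filter] at he
    exact he
  -- there is a triple
  have htrip : ∃ x ∈ Y, ∃ y ∈ Y, ∃ z ∈ Y, x < y ∧ y < z ∧ y - x < z - y := by
    by_contra hcon
    push Not at hcon
    have hYne : Y.Nonempty := Finset.card_pos.mp (by omega)
    obtain ⟨x', hx', _, hx'M⟩ := comb_halving A Y (Y.max' hYne) (by omega)
      (fun x hx y hy z hz h1 h2 => by
        have := hcon x hx y hy z hz h1 h2
        omega) (Y.max'_mem hYne) (fun y hy => Y.le_max' y hy)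
    have h1 := hE x' (hFE x' (hYF x' hx').1).1
    have h2 := hE (Y.max' hYne) (hFE _ (hYF _ (Y.max'_mem hYne)).1).1
    omega
  obtain ⟨u, hu, v, hv, w, hw, huv, hvw, hgap⟩ := htrip
  obtain ⟨huF, hug⟩ := hYF u hu
  obtain ⟨hvF, hvg⟩ := hYF v hv
  obtain ⟨hwF, hwg⟩ := hYF w hw
  obtain ⟨huE, hu1, hu2⟩ := hFE u huF
  obtain ⟨hvE, hv1, hv2⟩ := hFE v hvF
  obtain ⟨hwE, hw1, hw2⟩ := hFE w hwF
  refine ⟨a, haE, u, huE, v, hvE, w, hwE, d, hdE, hu1, huv, hvw, hw2, hgap, ?_⟩
  -- extract the class information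
  have key : ∀ e, a < e → e < d → g e = (side, i) →
      (decide (e - a ≤ d - e) = side) ∧ (2 : ℤ) ^ i ≤ min (e - a) (d - e) ∧
        min (e - a) (d - e) < 2 ^ (i + 1) := by
    intro e h1 h2 h3
    have h4 : decide (e - a ≤ d - e) = side := congrArg Prod.fst h3
    have h5 : Nat.log 2 (min (e - a) (d - e)).toNat = i := congrArg Prod.snd h3
    refine ⟨h4, ?_, ?_⟩
    · have h6 := Nat.pow_log_le_self 2 (x := (min (e - a) (d - e)).toNat) (by omega)
      rw [h5] at h6
      have h7 : (((min (e - a) (d - e)).toNat : ℕ) : ℤ) = min (e - a) (d - e) :=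
        Int.toNat_of_nonneg (by omega)
      rw [← h7]
      exact_mod_cast h6
    · have h6 := Nat.lt_pow_succ_log_self (b := 2) (by norm_num) (min (e - a) (d - e)).toNat
      rw [h5] at h6
      have h7 : (((min (e - a) (d - e)).toNat : ℕ) : ℤ) = min (e - a) (d - e) :=
        Int.toNat_of_nonneg (by omega)
      rw [← h7]
      exact_mod_cast h6
  obtain ⟨kv1, kv2, kv3⟩ := key v hv1 hv2 hvg
  obtain ⟨kw1, kw2, kw3⟩ := key w hw1 hw2 hwg
  rw [pow_succ] at kv3 kw3
  by_cases hs : v - a ≤ d - v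
  · have hside : side = true := by rw [← kv1]; simpa using hs
    have hs2 : w - a ≤ d - w := by
      have : decide (w - a ≤ d - w) = true := by rw [kw1, hside]
      simpa using this
    rw [min_eq_left hs] at kv2 kv3
    rw [min_eq_left hs2] at kw2 kw3
    constructor <;> linarith
  · have hside : side = false := by rw [← kv1]; simpa using hs
    have hs2 : ¬ w - a ≤ d - w := by
      have : decide (w - a ≤ d - w) = false := by rw [kw1, hside]
      simpa using this
    rw [min_eq_right (by omega)] at kv2 kv3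
    rw [min_eq_right (by omega)] at kw2 kw3
    push Not at hs hs2
    constructor <;> linarith

/-- `s` consecutive good quintuples, numbered from right to left. -/
theorem comb_cells (A s : ℕ) (x : ℤ) (E : Finset ℤ) (hE : ∀ e ∈ E, x ≤ e ∧ e < x + 2 ^ A)
    (hc : s * (2 * A ^ 2 + 2 * A + 3) ≤ E.card) :
    ∃ ea eb0 eb eb' ed : ℕ → ℤ, ∀ k < s, ea k ∈ E ∧ eb0 k ∈ E ∧ eb k ∈ E ∧ eb' k ∈ E ∧ ed k ∈ E ∧
      CombGood (ea k) (eb0 k) (eb k) (eb' k) (ed k) ∧ (k + 1 < s → ed (k + 1) < ea k) := by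
  classical
  set M := 2 * A ^ 2 + 2 * A + 3 with hM
  let o := E.orderEmbOfCardLe hc
  have ho : ∀ j, o j ∈ E := fun j => E.orderEmbOfCardLe_mem hc j
  have hidx : ∀ k < s, ∀ j : Fin M, (s - 1 - k) * M + j.val < s * M := by
    intro k hk j
    have hj := j.2
    have h1 : s - 1 - k + 1 ≤ s := by omega
    have h2 : (s - 1 - k + 1) * M ≤ s * M := Nat.mul_le_mul_right M h1
    rw [Nat.add_mul, Nat.one_mul] at h2
    omega
  let G : ℕ → Finset ℤ := fun k => if hk : k < s then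
    Finset.univ.image (fun j : Fin M => o ⟨(s - 1 - k) * M + j.val, hidx k hk j⟩) else ∅
  have hG : ∀ k (hk : k < s), G k = Finset.univ.image
      (fun j : Fin M => o ⟨(s - 1 - k) * M + j.val, hidx k hk j⟩) := by
    intro k hk
    exact dif_pos hk
  have hGE : ∀ k < s, ∀ e ∈ G k, e ∈ E := by
    intro k hk e he
    rw [hG k hk, Finset.mem_image] at he
    obtain ⟨j, _, rfl⟩ := he
    exact ho _
  have hGc : ∀ k < s, (G k).card = M := by
    intro k hk
    rw [hG k hk, Finset.card_image_of_injective, Finset.card_univ, Fintype.card_fin]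
    intro j j' hjj
    have := o.injective hjj
    rw [Fin.mk.injEq] at this
    apply Fin.ext
    omega
  have hex : ∀ k, ∃ t : ℤ × ℤ × ℤ × ℤ × ℤ, k < s → t.1 ∈ G k ∧ t.2.1 ∈ G k ∧ t.2.2.1 ∈ G k ∧
      t.2.2.2.1 ∈ G k ∧ t.2.2.2.2 ∈ G k ∧ CombGood t.1 t.2.1 t.2.2.1 t.2.2.2.1 t.2.2.2.2 := by
    intro k
    by_cases hk : k < s
    · obtain ⟨a, ha, b, hb, c, hc', d, hd, e, he, hgood⟩ := comb_group A x (G k)
        (fun e he => hE e (hGE k hk e he)) (by rw [hGc k hk])
      exact ⟨(a, b, c, d, e), fun _ => ⟨ha, hb, hc', hd, he, hgood⟩⟩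
    · exact ⟨(0, 0, 0, 0, 0), fun h => absurd h hk⟩
  choose t ht using hex
  refine ⟨fun k => (t k).1, fun k => (t k).2.1, fun k => (t k).2.2.1, fun k => (t k).2.2.2.1,
    fun k => (t k).2.2.2.2, ?_⟩
  intro k hk
  obtain ⟨h1, h2, h3, h4, h5, h6⟩ := ht k hk
  refine ⟨hGE k hk _ h1, hGE k hk _ h2, hGE k hk _ h3, hGE k hk _ h4, hGE k hk _ h5, h6, ?_⟩
  intro hk1
  obtain ⟨_, _, _, _, g5, _⟩ := ht (k + 1) hk1
  show (t (k + 1)).2.2.2.2 < (t k).1
  rw [hG k hk, Finset.mem_image] at h1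
  rw [hG (k + 1) hk1, Finset.mem_image] at g5
  obtain ⟨j, _, hj⟩ := h1
  obtain ⟨j', _, hj'⟩ := g5
  rw [← hj, ← hj']
  apply o.strictMono
  rw [Fin.mk_lt_mk]
  have hj2 := j'.2
  have h7 : s - 1 - (k + 1) + 1 = s - 1 - k := by omega
  have h8 : (s - 1 - (k + 1) + 1) * M = (s - 1 - k) * M := by rw [h7]
  rw [Nat.add_mul, Nat.one_mul] at h8
  omega

/-- The number of elements of `J` in the block `q` of scale `L`. -/
def combCnt (J : Finset ℤ) (L : ℤ) (q : ℤ) : ℕ := (J.filter (fun m => m / L = q)).card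

theorem comb_lemma_aux (s A θ : ℕ) (hθ : 2 ≤ θ) (hbig : 8 * (s * (2 * A ^ 2 + 2 * A + 3)) ≤ θ)
    (T : ℕ) (J : Finset ℤ) (hJ : ∀ m ∈ J, 0 ≤ m ∧ m < ((2 ^ A : ℕ) : ℤ) ^ T) (hcard : θ ^ T < J.card) :
    ∃ (i : ℕ) (q : ℤ) (a b0 d : ℕ → ℤ) (P P' : ℕ → Finset ℤ), i < T ∧ ∀ k < s,
      a k ∈ J ∧ b0 k ∈ J ∧ d k ∈ J ∧ P k ⊆ J ∧ P' k ⊆ J ∧
      J.card ≤ 2 * 2 ^ A * θ ^ T * (P k).card ∧ J.card ≤ 2 * 2 ^ A * θ ^ T * (P' k).card ∧
      (∀ j ∈ P k, ∀ j' ∈ P' k, a k < 2 * j - j' ∧ 2 * j - j' ≤ b0 k ∧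
        b0 k + ((2 ^ A : ℕ) : ℤ) ^ i ≤ j ∧ j < j' ∧ 2 * j' - j ≤ d k) ∧
      (∀ j ∈ P k, q * ((2 ^ A : ℕ) : ℤ) ^ (i + 1) ≤ j - ((2 ^ A : ℕ) : ℤ) ^ i ∧
        j < (q + 1) * ((2 ^ A : ℕ) : ℤ) ^ (i + 1)) ∧
      (k + 1 < s → d (k + 1) ≤ a k) := by
  classical
  set Λ : ℕ := 2 ^ A with hΛ
  have hΛpos : 0 < Λ := by positivity
  have hΛz : (0 : ℤ) < (Λ : ℤ) := by exact_mod_cast hΛpos
  have hθpos : 0 < θ := by omega
  have hJne : J.Nonempty := Finset.card_pos.mp (by omega)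
  -- maximise
  obtain ⟨⟨i', m'⟩, hmem, hmax⟩ := Finset.exists_max_image (Finset.range (T + 1) ×ˢ J)
    (fun p => combCnt J ((Λ : ℤ) ^ p.1) (p.2 / (Λ : ℤ) ^ p.1) * θ ^ (T - p.1))
    (Finset.Nonempty.product (by simp) hJne)
  simp only [Finset.mem_product, Finset.mem_range] at hmem hmax
  obtain ⟨hi', hm'⟩ := hmem
  have hV : J.card ≤ combCnt J ((Λ : ℤ) ^ i') (m' / (Λ : ℤ) ^ i') * θ ^ (T - i') := by
    have h1 := hmax (T, m') ⟨by omega, hm'⟩
    refine le_trans ?_ h1
    simp only [Nat.sub_self, pow_zero, mul_one]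
    unfold combCnt
    have : J.filter (fun m => m / (Λ : ℤ) ^ T = m' / (Λ : ℤ) ^ T) = J := by
      apply Finset.filter_true_of_mem
      intro m hm
      rw [Int.ediv_eq_zero_of_lt (hJ m hm).1 (hJ m hm).2,
        Int.ediv_eq_zero_of_lt (hJ m' hm').1 (hJ m' hm').2]
    rw [this]
  have hi'0 : i' ≠ 0 := by
    rintro rfl
    have : combCnt J ((Λ : ℤ) ^ 0) (m' / (Λ : ℤ) ^ 0) ≤ 1 := by
      unfold combCnt
      rw [Finset.card_le_one]
      intro a ha b hb
      simp only [pow_zero, Int.ediv_one, Finset.mem_filter] at ha hb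
      rw [ha.2, hb.2]
    have h2 : J.card ≤ 1 * θ ^ (T - 0) := le_trans hV (Nat.mul_le_mul_right _ this)
    simp only [one_mul, Nat.sub_zero] at h2
    omega
  obtain ⟨i, rfl⟩ := Nat.exists_eq_succ_of_ne_zero hi'0
  rw [Nat.succ_eq_add_one] at *
  have hiT : i < T := by omega
  set u : ℤ := (Λ : ℤ) ^ i with hu
  have hupos : 0 < u := by positivity
  set h : ℤ := (Λ : ℤ) ^ (i + 1) with hh
  have hhu : h = u * Λ := by rw [hh, hu, pow_succ]
  set q : ℤ := m' / h with hq
  set c : ℕ := combCnt J h q with hc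
  have hcθ : J.card ≤ c * θ ^ (T - (i + 1)) := hV
  have hcpos : 0 < c := by
    rcases Nat.eq_zero_or_pos c with h0 | h0
    · rw [h0] at hcθ; omega
    · exact h0
  have hcT : J.card ≤ c * θ ^ T := by
    refine le_trans hcθ (Nat.mul_le_mul_left _ (Nat.pow_le_pow_right hθpos (by omega)))
  -- children
  have hchild : ∀ f : ℤ, θ * combCnt J u f ≤ c := by
    intro f
    by_cases hf : ∃ m ∈ J, m / u = f
    · obtain ⟨m, hm, hmf⟩ := hf
      have h1 := hmax (i, m) ⟨by omega, hm⟩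
      simp only at h1
      rw [← hu, hmf] at h1
      have h2 : T - i = (T - (i + 1)) + 1 := by omega
      rw [h2, pow_succ] at h1
      have h3 : 0 < θ ^ (T - (i + 1)) := by positivity
      have h4 : (θ * combCnt J u f) * θ ^ (T - (i + 1)) ≤ c * θ ^ (T - (i + 1)) := by
        calc (θ * combCnt J u f) * θ ^ (T - (i + 1)) = combCnt J u f * (θ ^ (T - (i + 1)) * θ) := by ring
          _ ≤ _ := h1
      exact Nat.le_of_mul_le_mul_right h4 h3
    · have : combCnt J u f = 0 := by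
        unfold combCnt
        rw [Finset.card_eq_zero, Finset.filter_eq_empty_iff]
        intro m hm hmf
        exact hf ⟨m, hm, hmf⟩
      rw [this]; omega
  -- sum over children
  set I : Finset ℤ := Finset.Ico (q * Λ) (q * Λ + Λ) with hI
  have hIcard : I.card = Λ := by
    rw [hI, Int.card_Ico]
    simp
  have hsum : c = ∑ f ∈ I, combCnt J u f := by
    have hmaps : ∀ m ∈ J.filter (fun m => m / h = q), m / u ∈ I := by
      intro m hm
      rw [Finset.mem_filter] at hm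
      obtain ⟨_, hmq⟩ := hm
      rw [hhu, ← Int.ediv_ediv_of_nonneg hupos.le] at hmq
      rw [hI, Finset.mem_Ico]
      have h1 := Int.ediv_mul_le (m / u) (ne_of_gt hΛz)
      have h2 := Int.lt_ediv_add_one_mul_self (m / u) hΛz
      rw [hmq] at h1 h2
      constructor
      · exact h1
      · linarith
    rw [hc]
    unfold combCnt
    rw [Finset.card_eq_sum_card_fiberwise hmaps]
    apply Finset.sum_congr rfl
    intro f hf
    rw [Finset.filter_filter]
    congr 1
    apply Finset.filter_congr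
    intro m _
    constructor
    · rintro ⟨_, h2⟩; exact h2
    · intro h2
      refine ⟨?_, h2⟩
      rw [hhu, ← Int.ediv_ediv_of_nonneg hupos.le, h2]
      rw [hI, Finset.mem_Ico] at hf
      apply le_antisymm
      · have : f / (Λ : ℤ) < q + 1 := by
          apply Int.ediv_lt_of_lt_mul hΛz
          linarith
        omega
      · apply Int.le_ediv_of_mul_le hΛz
        linarith
  -- heavy children
  set H : Finset ℤ := I.filter (fun f => c ≤ 2 * Λ * combCnt J u f) with hH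
  have hHcard : θ ≤ 2 * H.card := by
    have h1 : ∑ f ∈ I, combCnt J u f = ∑ f ∈ H, combCnt J u f + ∑ f ∈ I.filter (fun f => ¬ c ≤ 2 * Λ * combCnt J u f), combCnt J u f := by
      rw [hH, Finset.sum_filter_add_sum_filter_not]
    have h2 : 2 * Λ * ∑ f ∈ I.filter (fun f => ¬ c ≤ 2 * Λ * combCnt J u f), combCnt J u f ≤ Λ * c := by
      rw [Finset.mul_sum]
      calc ∑ f ∈ I.filter (fun f => ¬ c ≤ 2 * Λ * combCnt J u f), 2 * Λ * combCnt J u f
          ≤ ∑ _f ∈ I.filter (fun f => ¬ c ≤ 2 * Λ * combCnt J u f), c := by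
            apply Finset.sum_le_sum
            intro f hf
            rw [Finset.mem_filter] at hf
            omega
        _ = (I.filter (fun f => ¬ c ≤ 2 * Λ * combCnt J u f)).card * c := by
            rw [Finset.sum_const, smul_eq_mul]
        _ ≤ I.card * c := Nat.mul_le_mul_right _ (Finset.card_filter_le _ _)
        _ = Λ * c := by rw [hIcard]
    have h3 : 2 * ∑ f ∈ I.filter (fun f => ¬ c ≤ 2 * Λ * combCnt J u f), combCnt J u f ≤ c := by
      have : Λ * (2 * ∑ f ∈ I.filter (fun f => ¬ c ≤ 2 * Λ * combCnt J u f), combCnt J u f) ≤ Λ * c := by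
        calc _ = 2 * Λ * ∑ f ∈ I.filter (fun f => ¬ c ≤ 2 * Λ * combCnt J u f), combCnt J u f := by ring
          _ ≤ _ := h2
      exact Nat.le_of_mul_le_mul_left this hΛpos
    have h4 : θ * ∑ f ∈ H, combCnt J u f ≤ H.card * c := by
      rw [Finset.mul_sum]
      calc _ ≤ ∑ _f ∈ H, c := Finset.sum_le_sum (fun f _ => hchild f)
        _ = _ := by rw [Finset.sum_const, smul_eq_mul]
    have h5 : c ≤ 2 * ∑ f ∈ H, combCnt J u f := by omega
    have h6 : θ * c ≤ (2 * H.card) * c := by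
      calc θ * c ≤ θ * (2 * ∑ f ∈ H, combCnt J u f) := Nat.mul_le_mul_left _ h5
        _ = 2 * (θ * ∑ f ∈ H, combCnt J u f) := by ring
        _ ≤ 2 * (H.card * c) := Nat.mul_le_mul_left _ h4
        _ = _ := by ring
    exact Nat.le_of_mul_le_mul_right h6 hcpos
  -- residue class mod 4
  have hmod : ∀ f ∈ H, f % 4 ∈ Finset.Ico (0 : ℤ) 4 := by
    intro f _
    rw [Finset.mem_Ico]
    omega
  obtain ⟨r, _, hr⟩ := Finset.exists_le_card_fiber_of_mul_le_card_of_maps_to
    (n := s * (2 * A ^ 2 + 2 * A + 3)) hmod ⟨0, by simp⟩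
    (by
      have h4 : (Finset.Ico (0 : ℤ) 4).card = 4 := by simp
      rw [h4]; omega)
  set E : Finset ℤ := H.filter (fun f => f % 4 = r) with hE
  have hEH : ∀ f ∈ E, f ∈ H ∧ f % 4 = r := fun f hf => by
    rw [hE, Finset.mem_filter] at hf; exact hf
  have hHI : ∀ f ∈ H, (q * Λ ≤ f ∧ f < q * Λ + Λ) ∧ c ≤ 2 * Λ * combCnt J u f := fun f hf => by
    rw [hH, Finset.mem_filter, hI, Finset.mem_Ico] at hf; exact hf
  obtain ⟨ea, eb0, eb, eb', ed, hcells⟩ := comb_cells A s (q * Λ) E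
    (fun e he => by
      have := (hHI e (hEH e he).1).1
      rw [hΛ] at this
      push_cast at this
      exact this) hr
  -- representatives
  have hrep : ∀ f ∈ E, ∃ m ∈ J, m / u = f := by
    intro f hf
    have h1 := (hHI f (hEH f hf).1).2
    have h2 : 0 < combCnt J u f := by
      rcases Nat.eq_zero_or_pos (combCnt J u f) with h0 | h0
      · rw [h0] at h1; omega
      · exact h0
    obtain ⟨m, hm⟩ := Finset.card_pos.mp h2
    rw [Finset.mem_filter] at hm
    exact ⟨m, hm.1, hm.2⟩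
  choose! rep hrepJ hrepf using hrep
  have hblock : ∀ m f : ℤ, m / u = f → u * f ≤ m ∧ m < u * f + u := by
    intro m f hmf
    have h1 := Int.ediv_mul_le m (ne_of_gt hupos)
    have h2 := Int.lt_ediv_add_one_mul_self m hupos
    rw [hmf] at h1 h2
    constructor
    · linarith
    · linarith
  have hPcard : ∀ f ∈ E, J.card ≤ 2 * Λ * θ ^ T * (J.filter (fun m => m / u = f)).card := by
    intro f hf
    have h1 := (hHI f (hEH f hf).1).2
    calc J.card ≤ c * θ ^ T := hcT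
      _ ≤ (2 * Λ * combCnt J u f) * θ ^ T := Nat.mul_le_mul_right _ h1
      _ = 2 * Λ * θ ^ T * (J.filter (fun m => m / u = f)).card := by unfold combCnt; ring
  refine ⟨i, q, fun k => rep (ea k), fun k => rep (eb0 k), fun k => rep (ed k),
    fun k => J.filter (fun m => m / u = eb k), fun k => J.filter (fun m => m / u = eb' k), hiT, ?_⟩
  intro k hk
  obtain ⟨hea, heb0, heb, heb', hed, hgood, hnext⟩ := hcells k hk
  obtain ⟨g1, g2, g3, g4, g5, g6, g7⟩ := hgood
  have m1 := (hEH _ hea).2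
  have m2 := (hEH _ heb0).2
  have m3 := (hEH _ heb).2
  have m4 := (hEH _ heb').2
  have m5 := (hEH _ hed).2
  -- integral margins
  have n1 : eb k - eb0 k + 2 ≤ eb' k - eb k := by omega
  have n2 : eb' k - eb k + 2 ≤ eb k - ea k := by omega
  have n3 : eb' k - eb k + 2 ≤ ed k - eb' k := by omega
  have n4 : eb0 k + 2 ≤ eb k := by omega
  have n5 : eb k + 1 ≤ eb' k := by omega
  have n6 : q * Λ + 1 ≤ eb k := by
    have := (hHI _ (hEH _ hea).1).1.1
    omega
  have n7 : eb k + 1 ≤ (q + 1) * Λ := by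
    have := (hHI _ (hEH _ heb).1).1.2
    linarith
  obtain ⟨ra1, ra2⟩ := hblock _ _ (hrepf _ hea)
  obtain ⟨rb1, rb2⟩ := hblock _ _ (hrepf _ heb0)
  obtain ⟨rd1, rd2⟩ := hblock _ _ (hrepf _ hed)
  refine ⟨hrepJ _ hea, hrepJ _ heb0, hrepJ _ hed, Finset.filter_subset _ _,
    Finset.filter_subset _ _, hPcard _ heb, hPcard _ heb', ?_, ?_, ?_⟩
  · intro j hj j' hj'
    rw [Finset.mem_filter] at hj hj'
    obtain ⟨j1, j2⟩ := hblock _ _ hj.2
    obtain ⟨j1', j2'⟩ := hblock _ _ hj'.2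
    have p1 := mul_le_mul_of_nonneg_left n1 hupos.le
    have p2 := mul_le_mul_of_nonneg_left n2 hupos.le
    have p3 := mul_le_mul_of_nonneg_left n3 hupos.le
    have p4 := mul_le_mul_of_nonneg_left n4 hupos.le
    have p5 := mul_le_mul_of_nonneg_left n5 hupos.le
    refine ⟨?_, ?_, ?_, ?_, ?_⟩
    · show rep (ea k) < 2 * j - j'
      linarith
    · show 2 * j - j' ≤ rep (eb0 k)
      linarith
    · show rep (eb0 k) + u ≤ j
      linarith
    · linarith
    · show 2 * j' - j ≤ rep (ed k)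
      linarith
  · intro j hj
    rw [Finset.mem_filter] at hj
    obtain ⟨j1, j2⟩ := hblock _ _ hj.2
    have p6 := mul_le_mul_of_nonneg_left n6 hupos.le
    have p7 := mul_le_mul_of_nonneg_left n7 hupos.le
    constructor
    · show q * h ≤ j - u
      rw [hhu]; linarith
    · show j < (q + 1) * h
      rw [hhu]; linarith
  · intro hk1
    obtain ⟨_, _, _, _, hed1, _, _⟩ := hcells (k + 1) hk1
    obtain ⟨r1, r2⟩ := hblock _ _ (hrepf _ hed1)
    have h1 : ed (k + 1) + 1 ≤ ea k := hnext hk1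
    have p := mul_le_mul_of_nonneg_left h1 hupos.le
    show rep (ed (k + 1)) ≤ rep (ea k)
    linarith

theorem comb_lemma (s b : ℕ) : ∃ Λ θ : ℕ, 2 ≤ Λ ∧ 2 ≤ θ ∧ θ ^ b ≤ Λ ∧
    ∀ (T : ℕ) (J : Finset ℤ), (∀ m ∈ J, 0 ≤ m ∧ m < (Λ : ℤ) ^ T) → θ ^ T < J.card →
    ∃ (i : ℕ) (q : ℤ) (a b0 d : ℕ → ℤ) (P P' : ℕ → Finset ℤ), i < T ∧ ∀ k < s,
      a k ∈ J ∧ b0 k ∈ J ∧ d k ∈ J ∧ P k ⊆ J ∧ P' k ⊆ J ∧
      J.card ≤ 2 * Λ * θ ^ T * (P k).card ∧ J.card ≤ 2 * Λ * θ ^ T * (P' k).card ∧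
      (∀ j ∈ P k, ∀ j' ∈ P' k, a k < 2 * j - j' ∧ 2 * j - j' ≤ b0 k ∧
        b0 k + (Λ : ℤ) ^ i ≤ j ∧ j < j' ∧ 2 * j' - j ≤ d k) ∧
      (∀ j ∈ P k, q * (Λ : ℤ) ^ (i + 1) ≤ j - (Λ : ℤ) ^ i ∧ j < (q + 1) * (Λ : ℤ) ^ (i + 1)) ∧
      (k + 1 < s → d (k + 1) ≤ a k) := by
  set m : ℕ := 1400 * (s + 1) * (b + 1) ^ 2 with hm
  have hm1 : 1 ≤ m := by
    have : 0 < m := by positivity
    exact this
  refine ⟨2 ^ (b * (4 * m) + 1), 2 ^ (4 * m), ?_, ?_, ?_, ?_⟩
  · calc 2 = 2 ^ 1 := by norm_num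
      _ ≤ _ := Nat.pow_le_pow_right (by norm_num) (by omega)
  · calc 2 = 2 ^ 1 := by norm_num
      _ ≤ _ := Nat.pow_le_pow_right (by norm_num) (by omega)
  · rw [← pow_mul]
    exact Nat.pow_le_pow_right (by norm_num) (by rw [mul_comm]; omega)
  · intro T J hJ hc
    apply comb_lemma_aux s (b * (4 * m) + 1) (2 ^ (4 * m)) _ _ T J hJ hc
    · calc 2 = 2 ^ 1 := by norm_num
        _ ≤ _ := Nat.pow_le_pow_right (by norm_num) (by omega)
    · have h1 : m ^ 4 ≤ 2 ^ (4 * m) := by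
        rw [mul_comm, pow_mul]
        exact Nat.pow_le_pow_left (Nat.lt_two_pow_self).le 4
      refine le_trans ?_ h1
      set X := b * (4 * m) + 1 with hX
      have hX1 : 1 ≤ X := by omega
      have hX2 : X ≤ 5 * ((b + 1) * m) := by
        rw [hX]; nlinarith
      have h2 : 2 * X ^ 2 + 2 * X + 3 ≤ 7 * X ^ 2 := by nlinarith
      have h3 : X ^ 2 ≤ 25 * ((b + 1) ^ 2 * m ^ 2) := by
        calc X ^ 2 ≤ (5 * ((b + 1) * m)) ^ 2 := Nat.pow_le_pow_left hX2 2
          _ = _ := by ring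
      calc 8 * (s * (2 * X ^ 2 + 2 * X + 3)) ≤ 8 * (s * (7 * (25 * ((b + 1) ^ 2 * m ^ 2)))) := by
            apply Nat.mul_le_mul_left
            apply Nat.mul_le_mul_left
            omega
        _ = (1400 * s * (b + 1) ^ 2) * m ^ 2 := by ring
        _ ≤ m * m ^ 2 := by
            apply Nat.mul_le_mul_right
            rw [hm]
            nlinarith [Nat.zero_le ((b + 1) ^ 2)]
        _ ≤ m ^ 4 := by
            calc m * m ^ 2 = m ^ 3 := by ring
              _ ≤ m ^ 4 := Nat.pow_le_pow_right hm1 (by norm_num)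

end Pool.Agent.H977R2
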