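import Pool.Agent.H977R2.Hairpin

/-!
Counting: walks with many foldable cut levels are rare.
-/

namespace Pool.Agent.H977R2

/-- The output of the combinatorial lemma on finite sets of integers. -/
def CombData (Λ θ s T : ℕ) : Prop :=
  ∀ J : Finset ℤ, (∀ m ∈ J, 0 ≤ m ∧ m < (Λ : ℤ) ^ T) → θ ^ T < J.card →
    ∃ (i : ℕ) (q : ℤ) (a b0 d : ℕ → ℤ) (P P' : ℕ → Finset ℤ), i < T ∧ ∀ k < s,
      a k ∈ J ∧ b0 k ∈ J ∧ d k ∈ J ∧ P k ⊆ J ∧ P' k ⊆ J ∧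
      J.card ≤ 2 * Λ * θ ^ T * (P k).card ∧ J.card ≤ 2 * Λ * θ ^ T * (P' k).card ∧
      (∀ j ∈ P k, ∀ j' ∈ P' k, a k < 2 * j - j' ∧ 2 * j - j' ≤ b0 k ∧
        b0 k + (Λ : ℤ) ^ i ≤ j ∧ j < j' ∧ 2 * j' - j ≤ d k) ∧
      (∀ j ∈ P k, q * (Λ : ℤ) ^ (i + 1) ≤ j - (Λ : ℤ) ^ i ∧ j < (q + 1) * (Λ : ℤ) ^ (i + 1)) ∧
      (k + 1 < s → d (k + 1) ≤ a k)

theorem Jt.spec {N : ℕ} {L : ℤ} {w : ℕ → ℤ × ℤ} {m : ℤ} (h : Jt N L w m) :
    Cut N w m (ct N w m) ∧ Saw N (fl w m (ct N w m)) ∧ Up w (ct N w m) ∧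
      |2 * m - (w N).1| ≤ L := by
  obtain ⟨τ, h1, h2, h3, h4⟩ := h
  rw [ct_eq h1]
  exact ⟨h1, h2, h3, h4⟩

/-- Foldable cut levels in the right position form a cell. -/
theorem cell_of_J {N : ℕ} {L : ℤ} {w : ℕ → ℤ × ℤ} {a b j j' d : ℤ} (hw : Saw N w)
    (hX : 3 * L ≤ (w N).1) (ha : Jt N L w a) (hb : Jt N L w b) (hj : Jt N L w j)
    (hj' : Jt N L w j') (hd : Jt N L w d) (h1 : a < 2 * j - j') (h2 : 2 * j - j' ≤ b)
    (h3 : b < j) (h4 : j < j') (h5 : 2 * j' - j ≤ d) : Cell N w a b j j' d := by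
  obtain ⟨a1, -, -, a4⟩ := ha.spec
  obtain ⟨b1, -, -, b4⟩ := hb.spec
  obtain ⟨j1, j2, j3, j4⟩ := hj.spec
  obtain ⟨k1, k2, k3, k4⟩ := hj'.spec
  obtain ⟨d1, -, -, d4⟩ := hd.spec
  rw [abs_le] at a4 j4 k4 d4
  exact ⟨⟨_, a1⟩, ⟨_, b1⟩, ⟨_, j1⟩, ⟨_, k1⟩, ⟨_, d1⟩, h1, h2, h3, h4, h5,
    zf_saw hw j1 k1 h4 j2 k2 j3 k3 a1 h1 d1 h5 (by omega) (by omega)⟩

/-- Extend a function on `Fin s` by zero. -/
def ext0 {s : ℕ} (f : Fin s → ℤ) : ℕ → ℤ := fun k => if h : k < s then f ⟨k, h⟩ else 0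

theorem ext0_lt {s : ℕ} (f : Fin s → ℤ) {k : ℕ} (h : k < s) : ext0 f k = f ⟨k, h⟩ := by
  simp [ext0, h]

open scoped Classical in
/-- Counting at a fixed scale. -/
theorem count_scale (N : ℕ) (K L : ℤ) (Λ θ s T n0 i : ℕ) (hL : 3 * L ≤ K) (hs : 1 ≤ s)
    (hΛ : 2 ≤ Λ) (hi : i < T) (hT : (N : ℤ) < (Λ : ℤ) ^ T) (B : Finset (ℕ → ℤ × ℤ))
    (hB : ∀ w ∈ B, Saw N w ∧ K ≤ (w N).1 ∧ n0 ≤ (Jset N L w).card)
    (q : (ℕ → ℤ × ℤ) → ℤ) (a b0 d : (ℕ → ℤ × ℤ) → ℕ → ℤ)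
    (P P' : (ℕ → ℤ × ℤ) → ℕ → Finset ℤ)
    (hC : ∀ w ∈ B, ∀ k < s,
      a w k ∈ Jset N L w ∧ b0 w k ∈ Jset N L w ∧ d w k ∈ Jset N L w ∧
      P w k ⊆ Jset N L w ∧ P' w k ⊆ Jset N L w ∧
      (Jset N L w).card ≤ 2 * Λ * θ ^ T * (P w k).card ∧
      (Jset N L w).card ≤ 2 * Λ * θ ^ T * (P' w k).card ∧
      (∀ j ∈ P w k, ∀ j' ∈ P' w k, a w k < 2 * j - j' ∧ 2 * j - j' ≤ b0 w k ∧
        b0 w k + (Λ : ℤ) ^ i ≤ j ∧ j < j' ∧ 2 * j' - j ≤ d w k) ∧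
      (∀ j ∈ P w k, q w * (Λ : ℤ) ^ (i + 1) ≤ j - (Λ : ℤ) ^ i ∧
        j < (q w + 1) * (Λ : ℤ) ^ (i + 1)) ∧
      (k + 1 < s → d w (k + 1) ≤ a w k)) :
    B.card * n0 ^ (2 * s) ≤ Λ ^ (T + s) * (2 * Λ * θ ^ T) ^ (2 * s) *
      ((SawSet N).filter (fun w => K - 2 * s * L ≤ (w N).1)).card := by
  obtain ⟨B', hB'⟩ : ∃ B', B' = (SawSet N).filter (fun w => K - 2 * s * L ≤ (w N).1) := ⟨_, rfl⟩
  rw [← hB']
  have hΛi : 0 < Λ ^ i := by positivity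
  -- the domain
  obtain ⟨D, hD⟩ : ∃ D : Finset ((_ : ℕ → ℤ × ℤ) × (Fin s → ℤ × ℤ × ℕ)), D =
      B.sigma (fun w => Fintype.piFinset (fun k : Fin s =>
        P w k ×ˢ (P' w k ×ˢ Finset.range (Λ ^ i)))) := ⟨_, rfl⟩
  have hDcard : D.card = ∑ w ∈ B, ∏ k : Fin s, ((P w k).card * ((P' w k).card * Λ ^ i)) := by
    rw [hD, Finset.card_sigma]
    refine Finset.sum_congr rfl (fun w _ => ?_)
    rw [Fintype.card_piFinset]
    refine Finset.prod_congr rfl (fun k _ => ?_)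
    rw [Finset.card_product, Finset.card_product, Finset.card_range]
  -- lower bound for the domain
  have hlow : B.card * (n0 ^ (2 * s) * (Λ ^ i) ^ s) ≤ (2 * Λ * θ ^ T) ^ (2 * s) * D.card := by
    rw [hDcard, Finset.mul_sum, ← smul_eq_mul, ← Finset.sum_const]
    refine Finset.sum_le_sum (fun w hw => ?_)
    have h1 : n0 ^ (2 * s) * (Λ ^ i) ^ s = ∏ _k : Fin s, (n0 ^ 2 * Λ ^ i) := by
      rw [Finset.prod_const, Finset.card_univ, Fintype.card_fin, mul_pow, pow_mul]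
    have h2 : (2 * Λ * θ ^ T) ^ (2 * s) * ∏ k : Fin s, ((P w k).card * ((P' w k).card * Λ ^ i))
        = ∏ k : Fin s, ((2 * Λ * θ ^ T) ^ 2 * ((P w k).card * ((P' w k).card * Λ ^ i))) := by
      conv_rhs => rw [Finset.prod_mul_distrib, Finset.prod_const, Finset.card_univ,
        Fintype.card_fin, ← pow_mul]
    rw [h1, h2]
    refine Finset.prod_le_prod' (fun k _ => ?_)
    obtain ⟨-, -, -, -, -, c1, c2, -⟩ := hC w hw k k.2
    have c0 := (hB w hw).2.2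
    calc n0 ^ 2 * Λ ^ i = (n0 * n0) * Λ ^ i := by ring
      _ ≤ ((2 * Λ * θ ^ T * (P w k).card) * (2 * Λ * θ ^ T * (P' w k).card)) * Λ ^ i := by
          gcongr
          · exact c0.trans c1
          · exact c0.trans c2
      _ = (2 * Λ * θ ^ T) ^ 2 * ((P w k).card * ((P' w k).card * Λ ^ i)) := by ring
  -- the codomain
  obtain ⟨Q, hQ⟩ : ∃ Q : Finset (Fin s → ℤ), Q = (Finset.range (Λ ^ (T - i - 1))).biUnion
      (fun r => Fintype.piFinset (fun _ : Fin s =>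
        Finset.Ico ((r : ℤ) * (Λ : ℤ) ^ (i + 1)) (((r : ℤ) + 1) * (Λ : ℤ) ^ (i + 1)))) := ⟨_, rfl⟩
  have hQcard : Q.card ≤ Λ ^ (T - i - 1) * (Λ ^ (i + 1)) ^ s := by
    rw [hQ]
    refine Finset.card_biUnion_le.trans ?_
    refine (Finset.sum_le_card_nsmul _ _ ((Λ ^ (i + 1)) ^ s) (fun r _ => ?_)).trans ?_
    · rw [Fintype.card_piFinset, Finset.prod_const, Finset.card_univ, Fintype.card_fin,
        Int.card_Ico]
      apply le_of_eq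
      congr 1
      have : ((r : ℤ) + 1) * (Λ : ℤ) ^ (i + 1) - (r : ℤ) * (Λ : ℤ) ^ (i + 1) =
          ((Λ ^ (i + 1) : ℕ) : ℤ) := by push_cast; ring
      rw [this, Int.toNat_natCast]
    · rw [Finset.card_range, smul_eq_mul]
  -- cells
  have hcell : ∀ x ∈ D, ∀ k (hk : k < s),
      Cell N x.1 (a x.1 k) (b0 x.1 k) (x.2 ⟨k, hk⟩).1 (x.2 ⟨k, hk⟩).2.1 (d x.1 k) ∧
      b0 x.1 k < (x.2 ⟨k, hk⟩).1 - (x.2 ⟨k, hk⟩).2.2 ∧
      (x.2 ⟨k, hk⟩).2.1 - (x.2 ⟨k, hk⟩).1 ≤ L ∧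
      q x.1 * (Λ : ℤ) ^ (i + 1) ≤ (x.2 ⟨k, hk⟩).1 - (x.2 ⟨k, hk⟩).2.2 ∧
      (x.2 ⟨k, hk⟩).1 < (q x.1 + 1) * (Λ : ℤ) ^ (i + 1) ∧
      0 ≤ (x.2 ⟨k, hk⟩).1 ∧ (x.2 ⟨k, hk⟩).1 ≤ N ∧
      (k + 1 < s → d x.1 (k + 1) ≤ a x.1 k) := by
    rintro ⟨w, f⟩ hx k hk
    rw [hD, Finset.mem_sigma] at hx
    obtain ⟨hw, hf⟩ := hx
    simp only at hw hf ⊢
    rw [Fintype.mem_piFinset] at hf
    have hfk := hf ⟨k, hk⟩
    rw [Finset.mem_product, Finset.mem_product, Finset.mem_range] at hfk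
    obtain ⟨f1, f2, f3⟩ := hfk
    obtain ⟨c1, c2, c3, c4, c5, -, -, c6, c7, c8⟩ := hC w hw k hk
    obtain ⟨hsaw, hK, -⟩ := hB w hw
    have m1 := (mem_Jset hsaw).1 c1
    have m2 := (mem_Jset hsaw).1 c2
    have m3 := (mem_Jset hsaw).1 c3
    have m4' := c4 f1
    have m4 := (mem_Jset hsaw).1 m4'
    have m5 := (mem_Jset hsaw).1 (c5 f2)
    obtain ⟨i1, i2, i3, i4, i5⟩ := c6 _ f1 _ f2
    obtain ⟨i6, i7⟩ := c7 _ f1
    have hpos : (0 : ℤ) < (Λ : ℤ) ^ i := by positivity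
    have f3' : ((f ⟨k, hk⟩).2.2 : ℤ) < (Λ : ℤ) ^ i := by exact_mod_cast f3
    have hJ := (Finset.mem_filter.1 m4').1
    rw [Finset.mem_Icc] at hJ
    have q4 := m4.spec.2.2.2
    have q5 := m5.spec.2.2.2
    rw [abs_le] at q4 q5
    refine ⟨cell_of_J hsaw (by omega) m1 m2 m4 m5 m3 i1 i2 (by omega) i4 i5, by omega, by omega,
      by omega, i7, hJ.1, hJ.2, c8⟩
  -- the map
  obtain ⟨Φ, hΦ⟩ : ∃ Φ : ((_ : ℕ → ℤ × ℤ) × (Fin s → ℤ × ℤ × ℕ)) →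
      (ℕ → ℤ × ℤ) × (Fin s → ℤ), ∀ x, Φ x =
      (Zs N x.1 (ext0 (fun k => (x.2 k).1)) (ext0 (fun k => (x.2 k).2.1)) s,
        fun k => (x.2 k).1 - (x.2 k).2.2) := ⟨_, fun _ => rfl⟩
  have hcell' : ∀ x ∈ D, ∀ k, k < s → Cell N x.1 (a x.1 k) (b0 x.1 k)
      (ext0 (fun k => (x.2 k).1) k) (ext0 (fun k => (x.2 k).2.1) k) (d x.1 k) := by
    intro x hx k hk
    rw [ext0_lt _ hk, ext0_lt _ hk]
    exact (hcell x hx k hk).1
  have hchain : ∀ x ∈ D, ∀ k, k + 1 < s → d x.1 (k + 1) ≤ a x.1 k := by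
    intro x hx k hk
    exact (hcell x hx k (by omega)).2.2.2.2.2.2.2 hk
  have hDB : ∀ x ∈ D, x.1 ∈ B := by
    intro x hx
    rw [hD, Finset.mem_sigma] at hx
    exact hx.1
  have hcard : D.card ≤ (B' ×ˢ Q).card := by
    refine Finset.card_le_card_of_injOn Φ ?_ ?_
    · intro x hx
      rw [Finset.mem_coe] at hx ⊢
      have hxB := hB x.1 (hDB x hx)
      rw [Finset.mem_product, hΦ]
      constructor
      · rw [hB', Finset.mem_filter, mem_SawSet]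
        refine ⟨(Zs_inv hxB.1 (hcell' x hx) (hchain x hx) s le_rfl).1, ?_⟩
        have := Zs_end hxB.1 (hcell' x hx) (hchain x hx) L (by
          intro k hk
          rw [ext0_lt _ hk, ext0_lt _ hk]
          exact (hcell x hx k hk).2.2.1) s le_rfl
        have h2 := hxB.2.1
        simp only
        omega
      · have h0 := hcell x hx 0 (by omega)
        have hq0 : 0 ≤ q x.1 := by
          by_contra hcon
          have h1 : (q x.1 + 1) * (Λ : ℤ) ^ (i + 1) ≤ 0 :=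
            mul_nonpos_of_nonpos_of_nonneg (by omega) (by positivity)
          have := h0.2.2.2.2.1
          have := h0.2.2.2.2.2.1
          omega
        have hq1 : q x.1 < (Λ : ℤ) ^ (T - i - 1) := by
          by_contra hcon
          have h1 : (Λ : ℤ) ^ (T - i - 1) * (Λ : ℤ) ^ (i + 1) ≤ q x.1 * (Λ : ℤ) ^ (i + 1) :=
            mul_le_mul_of_nonneg_right (by omega) (by positivity)
          rw [← pow_add] at h1
          have e : T - i - 1 + (i + 1) = T := by omega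
          rw [e] at h1
          have h3 := h0.2.2.2.1
          have h4 := h0.2.2.2.2.2.2.1
          omega
        rw [hQ, Finset.mem_biUnion]
        refine ⟨(q x.1).toNat, ?_, ?_⟩
        · rw [Finset.mem_range]
          zify
          rw [Int.toNat_of_nonneg hq0]
          exact hq1
        · rw [Fintype.mem_piFinset]
          intro k
          rw [Finset.mem_Ico, Int.toNat_of_nonneg hq0]
          have hk := hcell x hx k k.2
          refine ⟨hk.2.2.2.1, ?_⟩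
          have hk1 : (x.2 k).1 < (q x.1 + 1) * (Λ : ℤ) ^ (i + 1) := hk.2.2.2.2.1
          have hk2 : (x.2 k).1 - ((x.2 k).2.2 : ℤ) ≤ (x.2 k).1 := by omega
          exact lt_of_le_of_lt hk2 hk1
    · intro x hx y hy heq
      rw [Finset.mem_coe] at hx hy
      have hxB := hB x.1 (hDB x hx)
      have hyB := hB y.1 (hDB y hy)
      rw [hΦ, hΦ, Prod.mk.injEq] at heq
      obtain ⟨e1, e2⟩ := heq
      have hdec := Zs_decode (p := ext0 (fun k => (x.2 k).1 - (x.2 k).2.2)) hxB.1 hyB.1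
        (hcell' x hx) (hchain x hx) (hcell' y hy) (hchain y hy)
        (by
          intro k hk
          rw [ext0_lt _ hk, ext0_lt _ hk]
          refine ⟨(hcell x hx k hk).2.1, by omega⟩)
        (by
          intro k hk
          rw [ext0_lt _ hk, ext0_lt _ hk]
          have e3 := congrFun e2 ⟨k, hk⟩
          rw [e3]
          refine ⟨(hcell y hy k hk).2.1, by omega⟩) s le_rfl e1
      obtain ⟨g1, g2⟩ := hdec
      have g3 : x.2 = y.2 := by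
        funext k
        obtain ⟨g4, g5⟩ := g2 k k.2
        rw [ext0_lt _ k.2, ext0_lt _ k.2] at g4 g5
        have e3 : (x.2 k).1 - ((x.2 k).2.2 : ℤ) = (y.2 k).1 - ((y.2 k).2.2 : ℤ) := congrFun e2 k
        have g4' : (x.2 k).1 = (y.2 k).1 := g4
        have g5' : (x.2 k).2.1 = (y.2 k).2.1 := g5
        have g6 : (x.2 k).2.2 = (y.2 k).2.2 := by omega
        exact Prod.ext g4' (Prod.ext g5' g6)
      obtain ⟨x1, x2⟩ := x
      obtain ⟨y1, y2⟩ := y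
      simp only at g1 g3
      subst g1 g3
      rfl
  rw [Finset.card_product] at hcard
  -- put together
  have h1 : B.card * n0 ^ (2 * s) * (Λ ^ i) ^ s ≤
      (Λ ^ (T + s) * (2 * Λ * θ ^ T) ^ (2 * s) * B'.card) * (Λ ^ i) ^ s := by
    calc B.card * n0 ^ (2 * s) * (Λ ^ i) ^ s = B.card * (n0 ^ (2 * s) * (Λ ^ i) ^ s) := by ring
      _ ≤ (2 * Λ * θ ^ T) ^ (2 * s) * D.card := hlow
      _ ≤ (2 * Λ * θ ^ T) ^ (2 * s) * (B'.card * (Λ ^ (T - i - 1) * (Λ ^ (i + 1)) ^ s)) := by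
          gcongr
          exact hcard.trans (Nat.mul_le_mul_left _ hQcard)
      _ = (Λ ^ (T - i - 1) * Λ ^ s) * ((2 * Λ * θ ^ T) ^ (2 * s) * B'.card) * (Λ ^ i) ^ s := by
          rw [pow_succ Λ i, mul_pow]; ring
      _ ≤ Λ ^ (T + s) * ((2 * Λ * θ ^ T) ^ (2 * s) * B'.card) * (Λ ^ i) ^ s := by
          gcongr
          rw [← pow_add]
          exact Nat.pow_le_pow_right (by omega) (by omega)
      _ = _ := by ring
  exact Nat.le_of_mul_le_mul_right h1 (by positivity)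

open scoped Classical in
/-- Walks with many foldable cut levels are rare. -/
theorem count_big (N : ℕ) (K L : ℤ) (Λ θ s T n0 : ℕ) (hL : 3 * L ≤ K) (hs : 1 ≤ s)
    (hΛ : 2 ≤ Λ) (hT : (N : ℤ) < (Λ : ℤ) ^ T) (hn0 : θ ^ T < n0) (hC : CombData Λ θ s T) :
    ((SawSet N).filter (fun w => K ≤ (w N).1 ∧ n0 ≤ (Jset N L w).card)).card * n0 ^ (2 * s) ≤
      T * (Λ ^ (T + s) * (2 * Λ * θ ^ T) ^ (2 * s) *
      ((SawSet N).filter (fun w => K - 2 * s * L ≤ (w N).1)).card) := by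
  obtain ⟨B, hB⟩ : ∃ B, B = (SawSet N).filter (fun w => K ≤ (w N).1 ∧
    n0 ≤ (Jset N L w).card) := ⟨_, rfl⟩
  rw [← hB]
  have key : ∀ w : ℕ → ℤ × ℤ, ∃ (i : ℕ) (q : ℤ) (a b0 d : ℕ → ℤ) (P P' : ℕ → Finset ℤ),
      w ∈ B → (i < T ∧ ∀ k < s,
      a k ∈ Jset N L w ∧ b0 k ∈ Jset N L w ∧ d k ∈ Jset N L w ∧
      P k ⊆ Jset N L w ∧ P' k ⊆ Jset N L w ∧
      (Jset N L w).card ≤ 2 * Λ * θ ^ T * (P k).card ∧
      (Jset N L w).card ≤ 2 * Λ * θ ^ T * (P' k).card ∧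
      (∀ j ∈ P k, ∀ j' ∈ P' k, a k < 2 * j - j' ∧ 2 * j - j' ≤ b0 k ∧
        b0 k + (Λ : ℤ) ^ i ≤ j ∧ j < j' ∧ 2 * j' - j ≤ d k) ∧
      (∀ j ∈ P k, q * (Λ : ℤ) ^ (i + 1) ≤ j - (Λ : ℤ) ^ i ∧
        j < (q + 1) * (Λ : ℤ) ^ (i + 1)) ∧
      (k + 1 < s → d (k + 1) ≤ a k)) := by
    intro w
    by_cases hw : w ∈ B
    · have hw' := hw
      rw [hB, Finset.mem_filter, mem_SawSet] at hw'
      obtain ⟨h1, h2, h3⟩ := hw'
      obtain ⟨i, q, a, b0, d, P, P', h⟩ := hC (Jset N L w) (by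
        intro m hm
        have := (Finset.mem_filter.1 hm).1
        rw [Finset.mem_Icc] at this
        omega) (by omega)
      exact ⟨i, q, a, b0, d, P, P', fun _ => h⟩
    · exact ⟨0, 0, 0, 0, 0, fun _ => ∅, fun _ => ∅, fun h => absurd h hw⟩
  choose i q a b0 d P P' hkey using key
  have hfib : B.card = ∑ r ∈ Finset.range T, (B.filter (fun w => i w = r)).card := by
    apply Finset.card_eq_sum_card_fiberwise
    intro w hw
    rw [Finset.mem_coe, Finset.mem_range]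
    exact (hkey w hw).1
  rw [hfib, Finset.sum_mul]
  refine (Finset.sum_le_card_nsmul _ _ (Λ ^ (T + s) * (2 * Λ * θ ^ T) ^ (2 * s) *
      ((SawSet N).filter (fun w => K - 2 * s * L ≤ (w N).1)).card) (fun r hr => ?_)).trans ?_
  · rw [Finset.mem_range] at hr
    refine count_scale N K L Λ θ s T n0 r hL hs hΛ hr hT _ ?_ q a b0 d P P' ?_
    · intro w hw
      rw [Finset.mem_filter, hB, Finset.mem_filter, mem_SawSet] at hw
      exact ⟨hw.1.1, hw.1.2.1, hw.1.2.2⟩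
    · intro w hw k hk
      rw [Finset.mem_filter] at hw
      have := (hkey w hw.1).2 k hk
      rw [hw.2] at this
      exact this
  · rw [Finset.card_range, smul_eq_mul]

end Pool.Agent.H977R2
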