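import Pool.Agent.H977R2.ZFold

/-!
Decoding of Z-folds: a Z-fold can be undone from the folded walk and one integer `p`;
iterated Z-folds in disjoint cells.
-/

namespace Pool.Agent.H977R2

/-- The last time at which the walk is at level at most `m`. -/
noncomputable def ct (N : ℕ) (w : ℕ → ℤ × ℤ) (m : ℤ) : ℕ :=
  Nat.findGreatest (fun i => (w i).1 ≤ m) N

theorem ct_eq {N : ℕ} {w : ℕ → ℤ × ℤ} {m : ℤ} {τ : ℕ} (h : Cut N w m τ) : ct N w m = τ := by
  unfold ct
  rw [Nat.findGreatest_eq_iff]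
  refine ⟨h.1.le, fun _ => h.2.1 τ le_rfl, fun n h1 _ h2 => ?_⟩
  have := h.2.2 n h1
  omega

/-- `m` is a cut level of `w`. -/
def IsCut (N : ℕ) (w : ℕ → ℤ × ℤ) (m : ℤ) : Prop := ∃ τ, Cut N w m τ

theorem IsCut.ct {N : ℕ} {w : ℕ → ℤ × ℤ} {m : ℤ} (h : IsCut N w m) : Cut N w m (ct N w m) := by
  obtain ⟨τ, h⟩ := h
  rw [ct_eq h]
  exact h

/-- The Z-fold at two cut levels. -/
noncomputable def Z (N : ℕ) (w : ℕ → ℤ × ℤ) (j j' : ℤ) : ℕ → ℤ × ℤ :=
  zf w j j' (ct N w j) (ct N w j')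

/-- A cell: barriers `a`, `d`, separator `b`, and the two fold levels `j < j'`. -/
structure Cell (N : ℕ) (w : ℕ → ℤ × ℤ) (a b j j' d : ℤ) : Prop where
  ca : IsCut N w a
  cb : IsCut N w b
  cj : IsCut N w j
  cj' : IsCut N w j'
  cd : IsCut N w d
  h1 : a < 2 * j - j'
  h2 : 2 * j - j' ≤ b
  h3 : b < j
  h4 : j < j'
  h5 : 2 * j' - j ≤ d
  saw : Saw N (Z N w j j')

/-- What the decoding uses about a Z-fold. -/
theorem Z_props {N : ℕ} {w : ℕ → ℤ × ℤ} {a b j j' d p : ℤ} (hw : Saw N w)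
    (h : Cell N w a b j j' d) (hp : b < p) (hp' : p ≤ j) :
    ∃ t t' : ℕ, t = ct N w j ∧ t' = ct N w j' ∧ t < t' ∧
      (∀ i, i ≤ t → Z N w j j' i = w i) ∧
      (∀ i, t < i → i ≤ t' → Z N w j j' i = (2 * j - (w i).1, (w i).2)) ∧
      (∀ i, t' < i → Z N w j j' i = ((w i).1 - 2 * (j' - j), (w i).2)) ∧
      (∀ i, i ≤ t' → (Z N w j j' i).1 ≤ j) ∧ (Z N w j j' t).1 = j ∧
      (∀ i, t < i → i ≤ t' → (Z N w j j' i).1 < j) ∧
      (∃ σ, σ ≤ t ∧ p ≤ (Z N w j j' σ).1 ∧ (∀ i, i < σ → (Z N w j j' i).1 < p) ∧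
        (∀ i, σ ≤ i → 2 * j - j' ≤ (Z N w j j' i).1)) ∧
      (Z N w j j' t').1 = 2 * j - j' ∧ (∀ i, t' < i → 2 * j - j' < (Z N w j j' i).1) := by
  have hj := h.cj.ct
  have hj' := h.cj'.ct
  have hb := h.cb.ct
  have h2 := h.h2
  have h4 := h.h4
  have htt' : ct N w j < ct N w j' := hj.lt hw hj' h.h4
  have sj := hj.spec hw
  have sj' := hj'.spec hw
  refine ⟨ct N w j, ct N w j', rfl, rfl, htt', fun i hi => zf_le hi,
    fun i hi hi' => zf_mid hi hi', fun i hi => zf_gt (by omega) hi, ?_, ?_, ?_, ?_, ?_, ?_⟩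
  · intro i hi
    rcases Nat.lt_or_ge (ct N w j) i with h6 | h6
    · rw [Z, zf_mid h6 hi]
      have := hj.2.2 i h6
      simp only; omega
    · rw [Z, zf_le h6]
      exact hj.2.1 i h6
  · rw [Z, zf_le le_rfl]; exact sj.1
  · intro i hi hi'
    rw [Z, zf_mid hi hi']
    have := hj.2.2 i hi
    simp only; omega
  · -- first time at level ≥ p
    have hex : ∃ i, p ≤ (Z N w j j' i).1 := ⟨ct N w j, by
      rw [Z, zf_le le_rfl, sj.1]; exact hp'⟩
    classical
    refine ⟨Nat.find hex, Nat.find_min' hex (by rw [Z, zf_le le_rfl, sj.1]; exact hp'),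
      Nat.find_spec hex, fun i hi => not_le.mp (Nat.find_min hex hi), ?_⟩
    intro i hi
    have hσ : ct N w b < Nat.find hex := by
      by_contra hcon
      have h6 := Nat.find_spec hex
      have h7 := hb.lt hw hj h.h3
      have e : Z N w j j' (Nat.find hex) = w (Nat.find hex) := zf_le (by omega)
      rw [e] at h6
      have := hb.2.1 _ (not_lt.mp hcon)
      omega
    rcases Nat.lt_or_ge (ct N w j) i with h6 | h6
    · rcases Nat.lt_or_ge (ct N w j') i with h7 | h7
      · rw [Z, zf_gt h6 h7]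
        have := hj'.2.2 i h7
        simp only; omega
      · rw [Z, zf_mid h6 h7]
        have := hj'.2.1 i h7
        simp only; omega
    · rw [Z, zf_le h6]
      have := hb.2.2 i (by omega)
      omega
  · rw [Z, zf_mid htt' le_rfl, sj'.1]
  · intro i hi
    rw [Z, zf_gt (by omega) hi]
    have := hj'.2.2 i hi
    simp only; omega

/-- The Z-fold in a cell is determined by the folded walk and one integer `p` between the
separator and the fold level. -/
theorem Z_decode {N : ℕ} {w₁ w₂ : ℕ → ℤ × ℤ} {a₁ b₁ j₁ j₁' d₁ a₂ b₂ j₂ j₂' d₂ p : ℤ}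
    (hw₁ : Saw N w₁) (hw₂ : Saw N w₂) (h₁ : Cell N w₁ a₁ b₁ j₁ j₁' d₁)
    (h₂ : Cell N w₂ a₂ b₂ j₂ j₂' d₂) (hp₁ : b₁ < p) (hp₁' : p ≤ j₁) (hp₂ : b₂ < p)
    (hp₂' : p ≤ j₂) (heq : Z N w₁ j₁ j₁' = Z N w₂ j₂ j₂') :
    w₁ = w₂ ∧ j₁ = j₂ ∧ j₁' = j₂' := by
  obtain ⟨t, t', -, -, htt', A1, A2, A3, A4, A5, A6, ⟨σ, B1, B2, B3, B4⟩, A7, A8⟩ :=
    Z_props hw₁ h₁ hp₁ hp₁'
  obtain ⟨u, u', -, -, huu', C1, C2, C3, C4, C5, C6, ⟨ρ, D1, D2, D3, D4⟩, C7, C8⟩ :=
    Z_props hw₂ h₂ hp₂ hp₂'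
  rw [← heq] at C1 C2 C3 C4 C5 C6 D2 D3 D4 C7 C8
  generalize Z N w₁ j₁ j₁' = ζ at *
  have hσρ : σ = ρ := by
    rcases lt_trichotomy σ ρ with h | h | h
    · have := D3 σ h; omega
    · exact h
    · have := B3 ρ h; omega
  subst hσρ
  have m1 : 2 * j₁ - j₁' = 2 * j₂ - j₂' := by
    have x1 := B4 u' (by omega)
    have x2 := D4 t' (by omega)
    omega
  have t'eq : t' = u' := by
    rcases lt_trichotomy t' u' with h | h | h
    · have := A8 u' h; omega
    · exact h
    · have := C8 t' h; omega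
  subst t'eq
  have jeq : j₁ = j₂ := by
    have x1 := A4 u (by omega)
    have x2 := C4 t (by omega)
    omega
  subst jeq
  have teq : t = u := by
    rcases lt_trichotomy t u with h | h | h
    · have := A6 u h (by omega); omega
    · exact h
    · have := C6 t h (by omega); omega
  subst teq
  refine ⟨?_, rfl, by omega⟩
  funext i
  rcases Nat.lt_or_ge t i with h6 | h6
  · rcases Nat.lt_or_ge t' i with h7 | h7
    · have x1 := A3 i h7
      have x2 := C3 i h7
      rw [x1, Prod.mk.injEq] at x2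
      ext <;> omega
    · have x1 := A2 i h6 h7
      have x2 := C2 i h6 h7
      rw [x1, Prod.mk.injEq] at x2
      ext <;> omega
  · rw [← A1 i h6, ← C1 i h6]

/-- Cut levels below a common cut level transfer between walks with the same beginning. -/
theorem Cut.transfer {N : ℕ} {w w' : ℕ → ℤ × ℤ} {m d : ℤ} {τ td : ℕ} (hw : Saw N w)
    (h : Cut N w m τ) (hd : Cut N w d td) (hmd : m ≤ d) (hagree : ∀ i, i ≤ td → w' i = w i)
    (hd' : ∀ i, td < i → d + 1 ≤ (w' i).1) : Cut N w' m τ := by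
  have hτ : τ ≤ td := h.le hw hd hmd
  refine ⟨h.1, fun i hi => ?_, fun i hi => ?_⟩
  · rw [hagree i (by omega)]; exact h.2.1 i hi
  · rcases Nat.lt_or_ge td i with h1 | h1
    · have := hd' i h1; omega
    · rw [hagree i h1]; exact h.2.2 i hi

/-- Locality of cells. -/
theorem Cell.transfer {N : ℕ} {w w' : ℕ → ℤ × ℤ} {a b j j' d : ℤ} (hw : Saw N w)
    (hw' : Saw N w') (h : Cell N w a b j j' d)
    (hagree : ∀ i, i ≤ ct N w d → w' i = w i)
    (hd' : ∀ i, ct N w d < i → d + 1 ≤ (w' i).1) : Cell N w' a b j j' d := by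
  have hcd := h.cd.ct
  have tr : ∀ m τ, m ≤ d → Cut N w m τ → Cut N w' m τ := fun m τ hm hc =>
    hc.transfer hw hcd hm hagree hd'
  have i1 := h.h1
  have i2 := h.h2
  have i3 := h.h3
  have i4 := h.h4
  have i5 := h.h5
  have tra : ∀ m, m ≤ d → IsCut N w m → IsCut N w' m := fun m hm ⟨τ, hc⟩ => ⟨τ, tr m τ hm hc⟩
  have hj := h.cj.ct
  have hj' := h.cj'.ct
  have tj := tr j _ (by omega) hj
  have tj' := tr j' _ (by omega) hj'
  refine ⟨tra _ (by omega) h.ca, tra _ (by omega) h.cb, tra _ (by omega) h.cj,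
    tra _ (by omega) h.cj', tra _ le_rfl h.cd, i1, i2, i3, i4, i5, ?_⟩
  have htt' : ct N w j < ct N w j' := hj.lt hw hj' h.h4
  have htd : ct N w j' < ct N w d := hj'.lt hw hcd (by omega)
  have hdN : ct N w d < N := hcd.1
  have hS := h.saw
  -- `Z N w' j j'` agrees with `Z N w j j'` up to time `ct N w d`
  have e1 : Z N w' j j' = zf w' j j' (ct N w j) (ct N w j') := by
    unfold Z
    rw [ct_eq tj, ct_eq tj']
  rw [e1]
  have agr : ∀ i, i ≤ ct N w d → zf w' j j' (ct N w j) (ct N w j') i = Z N w j j' i := by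
    intro i hi
    unfold Z zf
    rw [hagree i hi]
  have late : ∀ i, ct N w d < i → zf w' j j' (ct N w j) (ct N w j') i
      = ((w' i).1 - 2 * (j' - j), (w' i).2) := fun i hi => zf_gt (by omega) (by omega)
  have early : ∀ i, i ≤ ct N w d → (Z N w j j' i).1 ≤ d - 2 * (j' - j) := by
    intro i hi
    rcases Nat.lt_or_ge (ct N w j) i with h6 | h6
    · rcases Nat.lt_or_ge (ct N w j') i with h7 | h7
      · rw [Z, zf_gt h6 h7]
        have := hcd.2.1 i hi
        simp only; omega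
      · rw [Z, zf_mid h6 h7]
        have := hj.2.2 i h6
        simp only; omega
    · rw [Z, zf_le h6]
      have := hj.2.1 i h6
      omega
  constructor
  · rw [agr 0 (by omega)]; exact hS.zero
  · intro i hi
    rcases lt_trichotomy i (ct N w d) with h6 | h6 | h6
    · rw [agr i h6.le, agr (i + 1) h6]; exact hS.adj i hi
    · rw [agr i h6.le, late (i + 1) (by omega), Z, zf_gt (by omega) (by omega)]
      have := hw'.adj i hi
      rw [hagree i h6.le] at this
      unfold Adj at *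
      simp only
      omega
    · rw [late i h6, late (i + 1) (by omega)]
      have := hw'.adj i hi
      unfold Adj at *
      simp only
      omega
  · have main : ∀ i k, i < k → k ≤ N → zf w' j j' (ct N w j) (ct N w j') i ≠
        zf w' j j' (ct N w j) (ct N w j') k := by
      intro i k hik hk heq
      rcases Nat.lt_or_ge (ct N w d) i with h6 | h6
      · rw [late i h6, late k (by omega), Prod.mk.injEq] at heq
        have : w' i = w' k := by ext <;> omega
        have := hw'.inj i k (by omega) hk this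
        omega
      · rcases Nat.lt_or_ge (ct N w d) k with h7 | h7
        · rw [agr i h6, late k h7] at heq
          have x1 := early i h6
          have x2 := hd' k h7
          rw [heq] at x1
          simp only at x1
          omega
        · rw [agr i h6, agr k h7] at heq
          have := hS.inj i k (by omega) hk heq
          omega
    intro i k hi hk heq
    rcases lt_trichotomy i k with h | h | h
    · exact absurd heq (main i k h hk)
    · exact h
    · exact absurd heq.symm (main k i h hi)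
  · intro i hi
    rw [late i (by omega), late N (by omega), hw'.const i hi]

/-- Iterated Z-folds. -/
noncomputable def Zs (N : ℕ) (w : ℕ → ℤ × ℤ) (j j' : ℕ → ℤ) : ℕ → (ℕ → ℤ × ℤ)
  | 0 => w
  | (k + 1) => Z N (Zs N w j j' k) (j k) (j' k)

/-- The cells at indices `l ≥ k` survive the first `k` Z-folds. -/
theorem Zs_inv {N : ℕ} {w : ℕ → ℤ × ℤ} {a b j j' d : ℕ → ℤ} {s : ℕ} (hw : Saw N w)
    (h : ∀ k, k < s → Cell N w (a k) (b k) (j k) (j' k) (d k))
    (hch : ∀ k, k + 1 < s → d (k + 1) ≤ a k) :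
    ∀ k, k ≤ s → Saw N (Zs N w j j' k) ∧
      ∀ l, k ≤ l → l < s → Cell N (Zs N w j j' k) (a l) (b l) (j l) (j' l) (d l) := by
  have had : ∀ l, l < s → a l < d l := by
    intro l hl
    have := h l hl
    have i1 := this.h1
    have i2 := this.h2
    have i3 := this.h3
    have i4 := this.h4
    have i5 := this.h5
    omega
  have hda : ∀ k l, k < l → l < s → d l ≤ a k := by
    intro k l hkl
    induction l, hkl using Nat.le_induction with
    | base => intro hl; exact hch k hl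
    | succ l hkl ih =>
      intro hl
      have h1 := ih (by omega)
      have h2 := hch l hl
      have h3 := had l (by omega)
      omega
  intro k
  induction k with
  | zero => intro _; exact ⟨hw, fun l _ hl => h l hl⟩
  | succ k ih =>
    intro hk
    obtain ⟨ih1, ih2⟩ := ih (by omega)
    have hc := ih2 k le_rfl (by omega)
    refine ⟨hc.saw, fun l hl hls => ?_⟩
    have hl' := ih2 l (by omega) hls
    have i1 := hc.h1
    have i2 := hc.h2
    have i3 := hc.h3
    have i4 := hc.h4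
    have hdl := hda k l (by omega) hls
    have hca := hc.ca.ct
    have hcj := hc.cj.ct
    have hcj' := hc.cj'.ct
    have hcd := hl'.cd.ct
    have ha_le_j : ct N (Zs N w j j' k) (a k) < ct N (Zs N w j j' k) (j k) :=
      hca.lt ih1 hcj (by omega)
    have hd_le_a : ct N (Zs N w j j' k) (d l) ≤ ct N (Zs N w j j' k) (a k) :=
      hcd.le ih1 hca hdl
    refine hl'.transfer ih1 hc.saw (fun i hi => ?_) (fun i hi => ?_)
    · exact zf_le (by omega)
    · show d l + 1 ≤ (Z N (Zs N w j j' k) (j k) (j' k) i).1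
      rcases Nat.lt_or_ge (ct N (Zs N w j j' k) (j k)) i with h6 | h6
      · rcases Nat.lt_or_ge (ct N (Zs N w j j' k) (j' k)) i with h7 | h7
        · rw [Z, zf_gt h6 h7]
          have := hcj'.2.2 i h7
          simp only; omega
        · rw [Z, zf_mid h6 h7]
          have := hcj'.2.1 i h7
          simp only; omega
      · rw [Z, zf_le h6]
        exact hcd.2.2 i hi

/-- Decoding of iterated Z-folds. -/
theorem Zs_decode {N : ℕ} {w₁ w₂ : ℕ → ℤ × ℤ} {a₁ b₁ j₁ j₁' d₁ a₂ b₂ j₂ j₂' d₂ p : ℕ → ℤ}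
    {s : ℕ} (hw₁ : Saw N w₁) (hw₂ : Saw N w₂)
    (h₁ : ∀ k, k < s → Cell N w₁ (a₁ k) (b₁ k) (j₁ k) (j₁' k) (d₁ k))
    (hch₁ : ∀ k, k + 1 < s → d₁ (k + 1) ≤ a₁ k)
    (h₂ : ∀ k, k < s → Cell N w₂ (a₂ k) (b₂ k) (j₂ k) (j₂' k) (d₂ k))
    (hch₂ : ∀ k, k + 1 < s → d₂ (k + 1) ≤ a₂ k)
    (hp₁ : ∀ k, k < s → b₁ k < p k ∧ p k ≤ j₁ k) (hp₂ : ∀ k, k < s → b₂ k < p k ∧ p k ≤ j₂ k) :
    ∀ k, k ≤ s → Zs N w₁ j₁ j₁' k = Zs N w₂ j₂ j₂' k →
      w₁ = w₂ ∧ ∀ l, l < k → j₁ l = j₂ l ∧ j₁' l = j₂' l := by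
  intro k
  induction k with
  | zero => intro _ h; exact ⟨h, fun l hl => by omega⟩
  | succ k ih =>
    intro hk heq
    obtain ⟨A1, A2⟩ := Zs_inv hw₁ h₁ hch₁ k (by omega)
    obtain ⟨B1, B2⟩ := Zs_inv hw₂ h₂ hch₂ k (by omega)
    have hdec := Z_decode (p := p k) A1 B1 (A2 k le_rfl (by omega)) (B2 k le_rfl (by omega))
      (hp₁ k (by omega)).1 (hp₁ k (by omega)).2 (hp₂ k (by omega)).1 (hp₂ k (by omega)).2 heq
    obtain ⟨e1, e2⟩ := ih (by omega) hdec.1
    refine ⟨e1, fun l hl => ?_⟩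
    rcases Nat.lt_or_ge l k with h | h
    · exact e2 l h
    · have : l = k := by omega
      subst this
      exact hdec.2

/-- End point of iterated Z-folds. -/
theorem Zs_end {N : ℕ} {w : ℕ → ℤ × ℤ} {a b j j' d : ℕ → ℤ} {s : ℕ} (hw : Saw N w)
    (h : ∀ k, k < s → Cell N w (a k) (b k) (j k) (j' k) (d k))
    (hch : ∀ k, k + 1 < s → d (k + 1) ≤ a k) (L : ℤ) (hL : ∀ k, k < s → j' k - j k ≤ L) :
    ∀ k, k ≤ s → (w N).1 - 2 * k * L ≤ (Zs N w j j' k N).1 := by
  intro k
  induction k with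
  | zero => intro _; simp [Zs]
  | succ k ih =>
    intro hk
    have ih' := ih (by omega)
    obtain ⟨A1, A2⟩ := Zs_inv hw h hch k (by omega)
    have hc := A2 k le_rfl (by omega)
    have hcj := hc.cj.ct
    have hcj' := hc.cj'.ct
    have : Zs N w j j' (k + 1) N = ((Zs N w j j' k N).1 - 2 * (j' k - j k),
        (Zs N w j j' k N).2) := by
      show Z N (Zs N w j j' k) (j k) (j' k) N = _
      rw [Z, zf_gt hcj.1 hcj'.1]
    rw [this]
    have := hL k (by omega)
    push_cast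
    nlinarith

end Pool.Agent.H977R2
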