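import Mathlib

/-!
Planar self-avoiding walks: basic definitions used in the proof that the
mean-square end-to-end distance is at least `c N^(1-ε)`.
-/

namespace Pool.Agent.H977R2

/-- Nearest neighbours in the square lattice. -/
def Adj (p q : ℤ × ℤ) : Prop :=
  (q.1 = p.1 + 1 ∧ q.2 = p.2) ∨ (q.1 = p.1 - 1 ∧ q.2 = p.2) ∨
  (q.1 = p.1 ∧ q.2 = p.2 + 1) ∨ (q.1 = p.1 ∧ q.2 = p.2 - 1)

/-- `w` is an `N`-step self-avoiding walk from the origin, extended by a constant after time `N`. -/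
structure Saw (N : ℕ) (w : ℕ → ℤ × ℤ) : Prop where
  zero : w 0 = (0, 0)
  adj : ∀ i, i < N → Adj (w i) (w (i + 1))
  inj : ∀ i k, i ≤ N → k ≤ N → w i = w k → i = k
  const : ∀ i, N ≤ i → w i = w N

theorem Adj.abs_fst {p q : ℤ × ℤ} (h : Adj p q) : q.1 ≤ p.1 + 1 ∧ p.1 ≤ q.1 + 1 := by
  unfold Adj at h; omega

theorem Adj.abs_snd {p q : ℤ × ℤ} (h : Adj p q) : q.2 ≤ p.2 + 1 ∧ p.2 ≤ q.2 + 1 := by
  unfold Adj at h; omega

theorem Adj.symm {p q : ℤ × ℤ} (h : Adj p q) : Adj q p := by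
  unfold Adj at *; omega

theorem Saw.bound {N : ℕ} {w : ℕ → ℤ × ℤ} (h : Saw N w) :
    ∀ i, i ≤ N → |(w i).1| ≤ i ∧ |(w i).2| ≤ i := by
  intro i
  induction i with
  | zero => intro _; simp [h.zero]
  | succ n ih =>
    intro hn
    have h1 := ih (by omega)
    have h2 := h.adj n (by omega)
    unfold Adj at h2
    rw [abs_le, abs_le] at *
    push_cast
    omega

theorem saw_finite (N : ℕ) : {w : ℕ → ℤ × ℤ | Saw N w}.Finite := by
  -- inject into functions Fin (N+1) → box
  have hfin : (Set.univ.pi (fun _ : Fin (N+1) =>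
      ((Finset.Icc (-(N:ℤ)) N ×ˢ Finset.Icc (-(N:ℤ)) N : Finset (ℤ × ℤ)) : Set (ℤ × ℤ)))).Finite :=
    Set.Finite.pi (fun _ => Finset.finite_toSet _)
  refine Set.Finite.of_finite_image (f := fun w (i : Fin (N+1)) => w i) (hfin.subset ?_) ?_
  · rintro _ ⟨w, hw, rfl⟩
    intro i _
    have := hw.bound i (by omega)
    have hi : (i : ℕ) ≤ N := by omega
    rw [abs_le, abs_le] at this
    simp only [Finset.coe_product, Finset.coe_Icc, Set.mem_prod, Set.mem_Icc]
    omega
  · intro w hw w' hw' heq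
    funext i
    have key : ∀ i, i ≤ N → w i = w' i := by
      intro i hi
      have := congrFun heq ⟨i, by omega⟩
      simpa using this
    rcases le_or_gt i N with h | h
    · exact key i h
    · rw [hw.const i h.le, hw'.const i h.le]
      exact key N le_rfl

/-- The finite set of `N`-step self-avoiding walks from the origin. -/
noncomputable def SawSet (N : ℕ) : Finset (ℕ → ℤ × ℤ) := (saw_finite N).toFinset

theorem mem_SawSet {N : ℕ} {w : ℕ → ℤ × ℤ} : w ∈ SawSet N ↔ Saw N w := by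
  simp [SawSet]

end Pool.Agent.H977R2
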