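import Pool.Agent.H977R2.Defs

namespace Pool.Agent.H977R2

open scoped Classical in
noncomputable def R (N K : ℕ) : ℕ := ((SawSet N).filter (fun w => ∃ i, i ≤ N ∧ (K : ℤ) ≤ (w i).1)).card
noncomputable def endSum (N : ℕ) : ℤ := ∑ w ∈ SawSet N, ((w N).1 ^ 2 + (w N).2 ^ 2)
noncomputable def maxSq (N : ℕ) (w : ℕ → ℤ × ℤ) : ℤ := (Finset.range (N + 1)).sup' ⟨0, by simp⟩ (fun i => (w i).1 ^ 2 + (w i).2 ^ 2)
def Key : Prop := ∀ ε : ℝ, 0 < ε → ∃ C : ℝ, ∀ N K : ℕ, 1 ≤ N → 1 ≤ K →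
  (R N K : ℝ) ≤ C * (N : ℝ) ^ ε / (K : ℝ) ^ 2 * (endSum N : ℝ)

/-- A symmetry: an involution of the lattice fixing the origin and preserving adjacency. -/
structure IsSym (g : ℤ × ℤ → ℤ × ℤ) : Prop where
  inv : ∀ a, g (g a) = a
  zero : g 0 = 0
  adj : ∀ a b, Adj a b → Adj (g a) (g b)

theorem IsSym.saw {g : ℤ × ℤ → ℤ × ℤ} (hg : IsSym g) {N : ℕ} {w : ℕ → ℤ × ℤ} (hw : Saw N w) :
    Saw N (fun i => g (w i)) := by
  obtain ⟨h0, h1, h2, h3⟩ := hw
  refine ⟨by rw [h0]; exact hg.zero, fun i hi => hg.adj _ _ (h1 i hi), ?_, fun i hi => by rw [h3 i hi]⟩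
  intro i j hi hj hij
  apply h2 i j hi hj
  have := congrArg g hij
  simpa [hg.inv] using this

theorem IsSym.sum {g : ℤ × ℤ → ℤ × ℤ} (hg : IsSym g) {N : ℕ} {M : Type*} [AddCommMonoid M]
    (F : (ℕ → ℤ × ℤ) → M) : ∑ w ∈ SawSet N, F (fun i => g (w i)) = ∑ w ∈ SawSet N, F w := by
  refine Finset.sum_nbij' (fun w i => g (w i)) (fun w i => g (w i)) ?_ ?_ ?_ ?_ ?_
  · intro w hw; rw [mem_SawSet] at *; exact hg.saw hw
  · intro w hw; rw [mem_SawSet] at *; exact hg.saw hw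
  · intro w _; funext i; simp [hg.inv]
  · intro w _; funext i; simp [hg.inv]
  · intro w _; rfl

theorem sym_swap : IsSym (fun a => (a.2, a.1)) where
  inv := fun a => rfl
  zero := rfl
  adj := fun a b h => by unfold Adj at *; simp only; omega

theorem sym_negx : IsSym (fun a => (-a.1, a.2)) where
  inv := fun a => by simp
  zero := by simp
  adj := fun a b h => by unfold Adj at *; simp only; omega

/- (i) symmetry facts -/
theorem sum_fst_eq_sum_snd (N : ℕ) : ∑ w ∈ SawSet N, (w N).1 ^ 2 = ∑ w ∈ SawSet N, (w N).2 ^ 2 := by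
  have := sym_swap.sum (N := N) (fun w => (w N).2 ^ 2)
  simpa using this

theorem step_bound {N : ℕ} {w : ℕ → ℤ × ℤ} (hw : Saw N w) : ∀ i, i ≤ N → (w i).1.natAbs ≤ i ∧ (w i).2.natAbs ≤ i := by
  intro i
  induction i with
  | zero => intro _; simp [hw.zero]
  | succ i ih =>
    intro hi
    have h1 := ih (by omega)
    have h2 := hw.adj i (by omega)
    unfold Adj at h2
    omega

/-- `A^2 = Σ_{K=1}^{N} (2K-1) [K ≤ A]` -/
theorem sq_eq_sum (A N : ℕ) (h : A ≤ N) :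
    ((A : ℤ)) ^ 2 = ∑ K ∈ Finset.range N, (if K + 1 ≤ A then (2 * (K : ℤ) + 1) else 0) := by
  rw [← Finset.sum_filter]
  have : (Finset.range N).filter (fun K => K + 1 ≤ A) = Finset.range A := by
    ext K; simp; omega
  rw [this]
  clear this h
  induction A with
  | zero => simp
  | succ A ih => rw [Finset.sum_range_succ, ← ih]; push_cast; ring

open scoped Classical in
/-- square of the positive maximum of `f` over `[0,N]` -/
theorem sq_le_sum {N : ℕ} (f : ℕ → ℤ) (hb : ∀ i ≤ N, f i ≤ N) (i : ℕ) (hi : i ≤ N) (h0 : 0 ≤ f i) :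
    (f i) ^ 2 ≤ ∑ K ∈ Finset.range N, (if (∃ j, j ≤ N ∧ ((K + 1 : ℕ) : ℤ) ≤ f j) then (2 * (K : ℤ) + 1) else 0) := by
  obtain ⟨A, hA⟩ := Int.eq_ofNat_of_zero_le h0
  have hAN : A ≤ N := by have := hb i hi; omega
  rw [hA, sq_eq_sum A N hAN]
  apply Finset.sum_le_sum
  intro K _
  by_cases h : K + 1 ≤ A
  · rw [if_pos h, if_pos ⟨i, hi, by rw [hA]; exact_mod_cast h⟩]
  · rw [if_neg h]; split_ifs <;> positivity

open scoped Classical in
noncomputable def ind (N : ℕ) (f : ℕ → ℤ) : ℤ :=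
  ∑ K ∈ Finset.range N, (if (∃ j, j ≤ N ∧ ((K + 1 : ℕ) : ℤ) ≤ f j) then (2 * (K : ℤ) + 1) else 0)

theorem ind_nonneg (N : ℕ) (f : ℕ → ℤ) : 0 ≤ ind N f := by
  unfold ind
  apply Finset.sum_nonneg
  intro K _; split_ifs <;> positivity

theorem sq_le_ind {N : ℕ} (f : ℕ → ℤ) (hb : ∀ i ≤ N, (f i).natAbs ≤ N) (i : ℕ) (hi : i ≤ N) :
    (f i) ^ 2 ≤ ind N f + ind N (fun j => - f j) := by
  rcases le_total 0 (f i) with h | h
  · have := sq_le_sum f (fun i hi => by have := hb i hi; omega) i hi h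
    have h2 := ind_nonneg N (fun j => - f j)
    unfold ind at *; linarith
  · have := sq_le_sum (fun j => - f j) (fun i hi => by have := hb i hi; omega) i hi (by omega)
    have h2 := ind_nonneg N f
    simp only [even_two, Even.neg_pow] at this
    unfold ind at *; linarith

theorem maxSq_le {N : ℕ} {w : ℕ → ℤ × ℤ} (hw : Saw N w) :
    maxSq N w ≤ ind N (fun j => (w j).1) + ind N (fun j => -(w j).1)
      + (ind N (fun j => (w j).2) + ind N (fun j => -(w j).2)) := by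
  unfold maxSq
  apply Finset.sup'_le
  intro i hi
  have hi' : i ≤ N := by simpa [Nat.lt_succ_iff] using hi
  have h1 := sq_le_ind (N := N) (fun j => (w j).1) (fun i hi => (step_bound hw i hi).1.trans hi) i hi'
  have h2 := sq_le_ind (N := N) (fun j => (w j).2) (fun i hi => (step_bound hw i hi).2.trans hi) i hi'
  linarith

open scoped Classical in
theorem sum_ind (N : ℕ) : ∑ w ∈ SawSet N, ind N (fun j => (w j).1) =
    ∑ K ∈ Finset.range N, (2 * (K : ℤ) + 1) * (R N (K + 1) : ℤ) := by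
  unfold ind R
  rw [Finset.sum_comm]
  apply Finset.sum_congr rfl
  intro K _
  rw [← Finset.sum_filter, Finset.sum_const, nsmul_eq_mul, mul_comm]

theorem sum_ind1 (N : ℕ) : ∑ w ∈ SawSet N, ind N (fun j => -(w j).1) =
    ∑ w ∈ SawSet N, ind N (fun j => (w j).1) := by
  have := sym_negx.sum (N := N) (fun w => ind N (fun j => (w j).1))
  simpa using this

theorem sum_ind2 (N : ℕ) : ∑ w ∈ SawSet N, ind N (fun j => (w j).2) =
    ∑ w ∈ SawSet N, ind N (fun j => (w j).1) := by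
  have := sym_swap.sum (N := N) (fun w => ind N (fun j => (w j).1))
  simpa using this

theorem sum_ind3 (N : ℕ) : ∑ w ∈ SawSet N, ind N (fun j => -(w j).2) =
    ∑ w ∈ SawSet N, ind N (fun j => (w j).1) := by
  have := sym_swap.sum (N := N) (fun w => ind N (fun j => -(w j).1))
  simp only at this
  rw [this, sum_ind1]

theorem sum_maxSq_le (N : ℕ) : ∑ w ∈ SawSet N, maxSq N w ≤
    4 * ∑ K ∈ Finset.range N, (2 * (K : ℤ) + 1) * (R N (K + 1) : ℤ) := by
  calc ∑ w ∈ SawSet N, maxSq N w ≤ ∑ w ∈ SawSet N, (ind N (fun j => (w j).1) + ind N (fun j => -(w j).1)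
      + (ind N (fun j => (w j).2) + ind N (fun j => -(w j).2))) :=
        Finset.sum_le_sum (fun w hw => maxSq_le (mem_SawSet.1 hw))
    _ = _ := by
      rw [Finset.sum_add_distrib, Finset.sum_add_distrib, Finset.sum_add_distrib, sum_ind1, sum_ind2,
        sum_ind3, sum_ind]; ring

theorem endSum_nonneg (N : ℕ) : 0 ≤ endSum N := by
  unfold endSum; apply Finset.sum_nonneg; intro w _; positivity

theorem log_le (ε : ℝ) (hε : 0 < ε) (N : ℕ) (hN : 1 ≤ N) :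
    ∑ K ∈ Finset.range N, (1 / ((K : ℝ) + 1)) ≤ (1 + 1 / ε) * (N : ℝ) ^ ε := by
  have hN1 : (1 : ℝ) ≤ N := by exact_mod_cast hN
  have h1 : ∑ K ∈ Finset.range N, (1 / ((K : ℝ) + 1)) ≤ 1 + Real.log N := by
    have := harmonic_le_one_add_log N
    unfold harmonic at this
    push_cast at this
    simpa [one_div] using this
  have h2 : Real.log N ≤ (N : ℝ) ^ ε / ε := Real.log_le_rpow_div (by positivity) hε
  have h3 : (1 : ℝ) ≤ (N : ℝ) ^ ε := Real.one_le_rpow hN1 hε.le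
  calc _ ≤ 1 + Real.log N := h1
    _ ≤ (N : ℝ) ^ ε + (N : ℝ) ^ ε / ε := add_le_add h3 h2
    _ = _ := by ring

/- (ii) -/
theorem max_le_of_key (h : Key) : ∀ ε : ℝ, 0 < ε → ∃ C : ℝ, ∀ N : ℕ, 1 ≤ N →
  ((∑ w ∈ SawSet N, maxSq N w : ℤ) : ℝ) ≤ C * (N : ℝ) ^ ε * (endSum N : ℝ) := by
  intro ε hε
  obtain ⟨C, hC⟩ := h (ε / 2) (by positivity)
  refine ⟨8 * |C| * (1 + 1 / (ε / 2)), fun N hN => ?_⟩
  have hN1 : (1 : ℝ) ≤ N := by exact_mod_cast hN
  have hE : (0 : ℝ) ≤ endSum N := by exact_mod_cast endSum_nonneg N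
  have h1 : ((∑ w ∈ SawSet N, maxSq N w : ℤ) : ℝ) ≤
      4 * ∑ K ∈ Finset.range N, (2 * (K : ℝ) + 1) * (R N (K + 1) : ℝ) := by
    have := sum_maxSq_le N
    exact_mod_cast this
  refine h1.trans ?_
  have hP : (0 : ℝ) ≤ (N : ℝ) ^ (ε / 2) := by positivity
  have h2 : ∀ K ∈ Finset.range N, (2 * (K : ℝ) + 1) * (R N (K + 1) : ℝ) ≤
      (2 * |C| * (N : ℝ) ^ (ε / 2) * endSum N) * (1 / ((K : ℝ) + 1)) := by
    intro K _
    have hk := hC N (K + 1) hN (by omega)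
    push_cast at hk
    have hK1 : (0 : ℝ) < (K : ℝ) + 1 := by positivity
    calc (2 * (K : ℝ) + 1) * (R N (K + 1) : ℝ)
        ≤ (2 * ((K : ℝ) + 1)) * (R N (K + 1) : ℝ) := by gcongr; linarith
      _ ≤ (2 * ((K : ℝ) + 1)) * (C * (N : ℝ) ^ (ε / 2) / ((K : ℝ) + 1) ^ 2 * (endSum N : ℝ)) := by gcongr
      _ ≤ (2 * ((K : ℝ) + 1)) * (|C| * (N : ℝ) ^ (ε / 2) / ((K : ℝ) + 1) ^ 2 * (endSum N : ℝ)) := by
          gcongr; exact le_abs_self C
      _ = _ := by field_simp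
  have h3 := Finset.sum_le_sum h2
  rw [← Finset.mul_sum] at h3
  have h4 := log_le (ε / 2) (by positivity) N hN
  have h5 : (N : ℝ) ^ ε = (N : ℝ) ^ (ε / 2) * (N : ℝ) ^ (ε / 2) := by
    rw [← Real.rpow_add (by positivity)]; congr 1; ring
  calc 4 * ∑ K ∈ Finset.range N, (2 * (K : ℝ) + 1) * (R N (K + 1) : ℝ)
      ≤ 4 * ((2 * |C| * (N : ℝ) ^ (ε / 2) * endSum N) * ∑ K ∈ Finset.range N, (1 / ((K : ℝ) + 1))) := by
        gcongr
    _ ≤ 4 * ((2 * |C| * (N : ℝ) ^ (ε / 2) * endSum N) * ((1 + 1 / (ε / 2)) * (N : ℝ) ^ (ε / 2))) := by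
        gcongr
    _ = _ := by rw [h5]; ring

theorem maxSq_ge_pt {N : ℕ} (w : ℕ → ℤ × ℤ) {i : ℕ} (hi : i ≤ N) :
    (w i).1 ^ 2 + (w i).2 ^ 2 ≤ maxSq N w := by
  unfold maxSq
  exact Finset.le_sup' (fun i => (w i).1 ^ 2 + (w i).2 ^ 2) (Finset.mem_range.2 (by omega))

/- (iii) deterministic: N+1 distinct points -/
theorem maxSq_ge {N : ℕ} {w} (hw : Saw N w) : (N : ℝ) / 8 ≤ maxSq N w := by
  have hM0 : 0 ≤ maxSq N w := by
    have := maxSq_ge_pt w (Nat.zero_le N); nlinarith [sq_nonneg (w 0).1, sq_nonneg (w 0).2]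
  rcases Nat.eq_zero_or_pos N with hN | hN
  · subst hN; simp; exact_mod_cast hM0
  obtain ⟨m, hm⟩ := Int.eq_ofNat_of_zero_le hM0
  set M := Nat.sqrt m with hMdef
  have hM1 : M * M ≤ m := Nat.sqrt_le m
  have hM2 : m < (M + 1) * (M + 1) := Nat.lt_succ_sqrt m
  have hbox : ∀ i ≤ N, (w i).1.natAbs ≤ M ∧ (w i).2.natAbs ≤ M := by
    intro i hi
    have h1 := maxSq_ge_pt w hi
    rw [hm] at h1
    have key : ∀ a : ℤ, a ^ 2 ≤ m → a.natAbs ≤ M := by
      intro a ha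
      rw [hMdef, Nat.le_sqrt']
      zify; rw [sq_abs]; exact ha
    exact ⟨key _ (by nlinarith [sq_nonneg (w i).2]), key _ (by nlinarith [sq_nonneg (w i).1])⟩
  have hcard : N + 1 ≤ (2 * M + 1) * (2 * M + 1) := by
    have hsub : (Finset.range (N + 1)).image w ⊆ (Finset.Icc (-(M : ℤ)) M) ×ˢ (Finset.Icc (-(M : ℤ)) M) := by
      intro p hp
      rw [Finset.mem_image] at hp
      obtain ⟨i, hi, rfl⟩ := hp
      rw [Finset.mem_range] at hi
      have := hbox i (by omega)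
      simp only [Finset.mem_product, Finset.mem_Icc]
      omega
    have h1 := Finset.card_le_card hsub
    rw [Finset.card_image_of_injOn, Finset.card_range, Finset.card_product, Int.card_Icc] at h1
    · have e : ((M : ℤ) + 1 - -(M : ℤ)).toNat = 2 * M + 1 := by omega
      rwa [e] at h1
    · intro i hi j hj hij
      simp only [Finset.coe_range, Set.mem_Iio] at hi hj
      exact hw.inj i j (by omega) (by omega) hij
  have hMpos : 1 ≤ M := by
    by_contra hc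
    have : M = 0 := by omega
    rw [this] at hcard; omega
  have h8 : N ≤ 8 * m := by nlinarith
  have : ((maxSq N w : ℤ) : ℝ) = (m : ℝ) := by rw [hm]; simp
  rw [this]
  have h8' : (N : ℝ) ≤ 8 * m := by exact_mod_cast h8
  linarith

/- (iv) -/
theorem msd_ge_of_key (h : Key) : ∀ ε : ℝ, 0 < ε → ∃ c : ℝ, 0 < c ∧ ∀ N : ℕ, 1 ≤ N →
  c * (N : ℝ) ^ (1 - ε) * ((SawSet N).card : ℝ) ≤ (endSum N : ℝ) := by
  intro ε hε
  obtain ⟨C, hC⟩ := max_le_of_key h ε hε
  have hD : 0 < max C 1 := lt_of_lt_of_le one_pos (le_max_right _ _)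
  refine ⟨1 / (8 * max C 1), by positivity, fun N hN => ?_⟩
  have hN1 : (1 : ℝ) ≤ N := by exact_mod_cast hN
  have hN0 : (0 : ℝ) < N := by linarith
  have hE : (0 : ℝ) ≤ endSum N := by exact_mod_cast endSum_nonneg N
  have h1 : (N : ℝ) / 8 * ((SawSet N).card : ℝ) ≤ max C 1 * (N : ℝ) ^ ε * (endSum N : ℝ) := by
    calc (N : ℝ) / 8 * ((SawSet N).card : ℝ) = ∑ w ∈ SawSet N, (N : ℝ) / 8 := by
          rw [Finset.sum_const, nsmul_eq_mul, mul_comm]
      _ ≤ ∑ w ∈ SawSet N, ((maxSq N w : ℤ) : ℝ) :=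
          Finset.sum_le_sum (fun w hw => maxSq_ge (mem_SawSet.1 hw))
      _ = ((∑ w ∈ SawSet N, maxSq N w : ℤ) : ℝ) := by push_cast; rfl
      _ ≤ C * (N : ℝ) ^ ε * (endSum N : ℝ) := hC N hN
      _ ≤ _ := by gcongr; exact le_max_left _ _
  have h2 : (N : ℝ) ^ (1 - ε) * (N : ℝ) ^ ε = N := by
    rw [← Real.rpow_add hN0]; simp
  have hP : 0 < (N : ℝ) ^ ε := by positivity
  rw [← sub_nonneg] at h1 ⊢
  have h3 : (endSum N : ℝ) - 1 / (8 * max C 1) * (N : ℝ) ^ (1 - ε) * ((SawSet N).card : ℝ) =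
      (max C 1 * (N : ℝ) ^ ε * (endSum N : ℝ) - (N : ℝ) / 8 * ((SawSet N).card : ℝ)) / (max C 1 * (N : ℝ) ^ ε) := by
    rw [eq_div_iff (by positivity)]
    nth_rewrite 4 [← h2]
    field_simp
  rw [h3]
  positivity

end Pool.Agent.H977R2
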