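import Pool.Agent.H977R2.Decode

/-!
Unfolding walks at their rightmost column: walks with large extension and small end point are
at most as many as pairs (walk with large end point, foldable cut level).
-/

namespace Pool.Agent.H977R2

/-- Foldable cut levels whose fold has end point at distance at most `L` from the axis. -/
def Jt (N : ℕ) (L : ℤ) (w : ℕ → ℤ × ℤ) (m : ℤ) : Prop :=
  ∃ τ, Cut N w m τ ∧ Saw N (fl w m τ) ∧ Up w τ ∧ |2 * m - (w N).1| ≤ L

open scoped Classical in
noncomputable def Jset (N : ℕ) (L : ℤ) (w : ℕ → ℤ × ℤ) : Finset ℤ :=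
  (Finset.Icc (0 : ℤ) N).filter (fun m => Jt N L w m)

theorem mem_Jset {N : ℕ} {L : ℤ} {w : ℕ → ℤ × ℤ} {m : ℤ} (hw : Saw N w) :
    m ∈ Jset N L w ↔ Jt N L w m := by
  classical
  unfold Jset
  simp only [Finset.mem_filter, Finset.mem_Icc]
  refine ⟨fun h => h.2, fun h => ⟨?_, h⟩⟩
  obtain ⟨τ, hc, -⟩ := h
  have h0 := hc.2.1 0 (by omega)
  rw [hw.zero] at h0
  have h1 := (hc.spec hw).1
  have h2 := (hw.bound τ hc.1.le).1
  have h3 := hc.1
  rw [abs_le] at h2
  simp only at h0
  omega

/-- `t` is the last time at which the walk is in its rightmost column, and so on. -/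
def TipAt (N : ℕ) (K L : ℤ) (w : ℕ → ℤ × ℤ) (t : ℕ) : Prop :=
  t < N ∧ (∀ i, i ≤ t → (w i).1 ≤ (w t).1) ∧ (∀ i, t < i → (w i).1 < (w t).1) ∧
    K ≤ (w t).1 ∧ Up w t ∧ |(w N).1| ≤ L

theorem fl_fl (w : ℕ → ℤ × ℤ) (m : ℤ) (τ : ℕ) : fl (fl w m τ) m τ = w := by
  funext i
  rcases Nat.lt_or_ge τ i with h | h
  · rw [fl_gt h, fl_gt h]
    ext <;> simp
  · rw [fl_le h, fl_le h]

theorem unfold_saw {N : ℕ} {K L : ℤ} {w : ℕ → ℤ × ℤ} {t : ℕ} (hw : Saw N w)
    (h : TipAt N K L w t) : Saw N (fl w (w t).1 t) ∧ Cut N (fl w (w t).1 t) (w t).1 t := by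
  obtain ⟨h1, h2, h3, h4, h5, h6⟩ := h
  have hcut : Cut N (fl w (w t).1 t) (w t).1 t := by
    refine ⟨h1, fun i hi => ?_, fun i hi => ?_⟩
    · rw [fl_le hi]; exact h2 i hi
    · rw [fl_gt hi]
      have := h3 i hi
      simp only; omega
  refine ⟨?_, hcut⟩
  constructor
  · rw [fl_le (by omega)]; exact hw.zero
  · intro i hi
    have ha := hw.adj i hi
    rcases lt_trichotomy i t with h | h | h
    · rw [fl_le (by omega), fl_le (by omega)]; exact ha
    · subst h
      rw [fl_le (by omega), fl_gt (by omega)]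
      have := h3 (i + 1) (by omega)
      unfold Adj at *
      simp only
      omega
    · rw [fl_gt (by omega), fl_gt (by omega)]
      unfold Adj at *
      simp only
      omega
  · intro i k hi hk heq
    rcases Nat.lt_or_ge t i with hi1 | hi1 <;> rcases Nat.lt_or_ge t k with hk1 | hk1
    · rw [fl_gt hi1, fl_gt hk1, Prod.mk.injEq] at heq
      have : w i = w k := by ext <;> omega
      exact hw.inj i k hi hk this
    · have x1 := hcut.2.2 i hi1
      have x2 := hcut.2.1 k hk1
      rw [heq] at x1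
      omega
    · have x1 := hcut.2.2 k hk1
      have x2 := hcut.2.1 i hi1
      rw [heq] at x2
      omega
    · rw [fl_le hi1, fl_le hk1] at heq
      exact hw.inj i k hi hk heq
  · intro i hi
    rw [fl_gt (by omega), fl_gt (by omega), hw.const i hi]

open scoped Classical in
/-- Walks whose tip is `+`-oriented inject into pairs (unfolded walk, foldable level). -/
theorem tip_card_le (N : ℕ) (K L : ℤ) (hLK : L < K) :
    ((SawSet N).filter (fun w => ∃ t, TipAt N K L w t)).card ≤
      ∑ w ∈ (SawSet N).filter (fun w => K ≤ (w N).1), (Jset N L w).card := by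
  rw [← Finset.card_sigma]
  have hch : ∀ w : ℕ → ℤ × ℤ, ∃ t, (∃ t, TipAt N K L w t) → TipAt N K L w t := by
    intro w
    by_cases h : ∃ t, TipAt N K L w t
    · obtain ⟨t, ht⟩ := h
      exact ⟨t, fun _ => ht⟩
    · exact ⟨0, fun h' => absurd h' h⟩
  choose T hT using hch
  refine Finset.card_le_card_of_injOn
    (fun w => (⟨fl w (w (T w)).1 (T w), (w (T w)).1⟩ : (_ : ℕ → ℤ × ℤ) × ℤ)) ?_ ?_
  · intro w hw
    rw [Finset.mem_coe, Finset.mem_filter, mem_SawSet] at hw
    obtain ⟨hw, hex⟩ := hw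
    have ht := hT w hex
    obtain ⟨u1, u2⟩ := unfold_saw hw ht
    obtain ⟨h1, h2, h3, h4, h5, h6⟩ := ht
    rw [Finset.mem_coe, Finset.mem_sigma, Finset.mem_filter, mem_SawSet]
    rw [abs_le] at h6
    have hN : (fl w (w (T w)).1 (T w) N) = (2 * (w (T w)).1 - (w N).1, (w N).2) := fl_gt h1
    refine ⟨⟨u1, ?_⟩, ?_⟩
    · simp only
      rw [hN]
      simp only
      omega
    · rw [mem_Jset u1]
      refine ⟨T w, u2, ?_, ?_, ?_⟩
      · simp only
        rw [fl_fl]; exact hw
      · refine ⟨h5.1, ?_⟩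
        rw [fl_le (by omega), fl_le le_rfl]
        exact h5.2
      · simp only
        rw [hN, abs_le]
        simp only
        constructor <;> omega
  · intro w hw v hv heq
    rw [Finset.mem_coe, Finset.mem_filter, mem_SawSet] at hw hv
    simp only [Sigma.mk.injEq, heq_eq_eq] at heq
    obtain ⟨e1, e2⟩ := heq
    obtain ⟨u1, u2⟩ := unfold_saw hw.1 (hT w hw.2)
    obtain ⟨v1, v2⟩ := unfold_saw hv.1 (hT v hv.2)
    have t1 := ct_eq u2
    have t2 := ct_eq v2
    have tt : T w = T v := by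
      rw [← t1, ← t2, e1, e2]
    have h1 := fl_fl w (w (T w)).1 (T w)
    have h2 := fl_fl v (v (T v)).1 (T v)
    rw [← h1, e1, e2, tt, h2]

/-- Reflection in the horizontal axis. -/
def ry (w : ℕ → ℤ × ℤ) : ℕ → ℤ × ℤ := fun i => ((w i).1, -(w i).2)

theorem ry_ry (w : ℕ → ℤ × ℤ) : ry (ry w) = w := by
  funext i
  simp [ry]

theorem Saw.ry {N : ℕ} {w : ℕ → ℤ × ℤ} (hw : Saw N w) : Saw N (ry w) := by
  constructor
  · simp [H977R2.ry, hw.zero]
  · intro i hi
    have := hw.adj i hi
    unfold Adj H977R2.ry at *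
    simp only
    omega
  · intro i k hi hk heq
    simp only [H977R2.ry, Prod.mk.injEq] at heq
    have : w i = w k := by ext <;> omega
    exact hw.inj i k hi hk this
  · intro i hi
    simp only [H977R2.ry, hw.const i hi]

/-- A walk reaching the column `K` with end point near the axis has a tip, up to a reflection. -/
theorem tip_exists {N : ℕ} {K L : ℤ} {w : ℕ → ℤ × ℤ} (hw : Saw N w) (hL : 0 ≤ L) (hLK : L < K)
    (hend : |(w N).1| ≤ L) (hK : ∃ i, i ≤ N ∧ K ≤ (w i).1) :
    (∃ t, TipAt N K L w t) ∨ (∃ t, TipAt N K L (ry w) t) := by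
  classical
  obtain ⟨i0, hi0, hmax⟩ := Finset.exists_max_image (Finset.range (N + 1)) (fun i => (w i).1)
    ⟨0, by simp⟩
  rw [Finset.mem_range] at hi0
  obtain ⟨i1, hi1, hKi⟩ := hK
  have hM : K ≤ (w i0).1 := by
    have := hmax i1 (by rw [Finset.mem_range]; omega)
    omega
  obtain ⟨t, ht⟩ : ∃ t, t = Nat.findGreatest (fun i => (w i).1 = (w i0).1) N := ⟨_, rfl⟩
  have hxt : (w t).1 = (w i0).1 := by
    rw [ht]
    exact Nat.findGreatest_spec (P := fun i => (w i).1 = (w i0).1) (m := i0) (by omega) rfl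
  have htN : t ≤ N := by rw [ht]; exact Nat.findGreatest_le N
  rw [abs_le] at hend
  have htN' : t < N := by
    rcases Nat.eq_or_lt_of_le htN with h | h
    · rw [h] at hxt; omega
    · exact h
  have hle : ∀ i, i ≤ N → (w i).1 ≤ (w t).1 := by
    intro i hi
    rw [hxt]
    exact hmax i (by rw [Finset.mem_range]; omega)
  have hlt : ∀ i, t < i → (w i).1 < (w t).1 := by
    have h1 : ∀ i, t < i → i ≤ N → (w i).1 < (w t).1 := by
      intro i hi hiN
      refine lt_of_le_of_ne (hle i hiN) (fun h => ?_)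
      rw [ht] at hi
      exact Nat.findGreatest_is_greatest hi hiN (h.trans hxt)
    intro i hi
    rcases Nat.lt_or_ge N i with h | h
    · rw [hw.const i h.le]; exact h1 N htN' le_rfl
    · exact h1 i hi h
  have ht1 : 1 ≤ t := by
    by_contra hcon
    have : t = 0 := by omega
    rw [this, hw.zero] at hxt
    simp only at hxt
    omega
  have e1 : t - 1 + 1 = t := by omega
  have a1 := hw.adj (t - 1) (by omega)
  have a2 := hw.adj t htN'
  rw [e1] at a1
  have b1 := hle (t - 1) (by omega)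
  have b2 := hlt (t + 1) (by omega)
  have hne : w (t - 1) ≠ w (t + 1) := by
    intro h
    have := hw.inj (t - 1) (t + 1) (by omega) (by omega) h
    omega
  have hne' : ¬ ((w (t - 1)).1 = (w (t + 1)).1 ∧ (w (t - 1)).2 = (w (t + 1)).2) := by
    rintro ⟨h1, h2⟩
    exact hne (Prod.ext h1 h2)
  have hor : Up w t ∨ Up (ry w) t := by
    unfold Adj at a1 a2
    have : ((w (t - 1)).1 = (w t).1 ∧ (w (t - 1)).2 = (w t).2 - 1) ∨
        ((w (t - 1)).1 = (w t).1 ∧ (w (t - 1)).2 = (w t).2 + 1) := by omega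
    rcases this with h | h
    · left; exact ⟨ht1, Prod.ext h.1 h.2⟩
    · right
      refine ⟨ht1, Prod.ext h.1 ?_⟩
      simp only [ry]
      omega
  rcases hor with h | h
  · left
    exact ⟨t, htN', fun i hi => hle i (by omega), hlt, by omega, h, by rw [abs_le]; exact hend⟩
  · right
    exact ⟨t, htN', fun i hi => hle i (by omega), hlt, by simp only [ry]; omega, h, by
      rw [abs_le]; exact hend⟩

open scoped Classical in
theorem ext_card_le (N : ℕ) (K L : ℤ) (hL : 0 ≤ L) (hLK : L < K) :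
    ((SawSet N).filter (fun w => ∃ i, i ≤ N ∧ K ≤ (w i).1)).card ≤
      2 * ∑ w ∈ (SawSet N).filter (fun w => K ≤ (w N).1), (Jset N L w).card +
      ((SawSet N).filter (fun w => L + 1 ≤ |(w N).1|)).card := by
  have h1 := tip_card_le N K L hLK
  have h2 : ((SawSet N).filter (fun w => ∃ t, TipAt N K L (ry w) t)).card ≤
      ((SawSet N).filter (fun w => ∃ t, TipAt N K L w t)).card := by
    refine Finset.card_le_card_of_injOn ry ?_ ?_
    · intro w hw
      rw [Finset.mem_coe, Finset.mem_filter, mem_SawSet] at hw ⊢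
      exact ⟨hw.1.ry, hw.2⟩
    · intro w _ v _ h
      rw [← ry_ry w, ← ry_ry v]
      exact congrArg ry h
  have h3 : (SawSet N).filter (fun w => ∃ i, i ≤ N ∧ K ≤ (w i).1) ⊆
      ((SawSet N).filter (fun w => ∃ t, TipAt N K L w t)) ∪
      ((SawSet N).filter (fun w => ∃ t, TipAt N K L (ry w) t)) ∪
      ((SawSet N).filter (fun w => L + 1 ≤ |(w N).1|)) := by
    intro w hw
    rw [Finset.mem_filter, mem_SawSet] at hw
    rw [Finset.mem_union, Finset.mem_union, Finset.mem_filter, Finset.mem_filter,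
      Finset.mem_filter, mem_SawSet]
    by_cases h : L + 1 ≤ |(w N).1|
    · right; exact ⟨hw.1, h⟩
    · left
      rcases tip_exists hw.1 hL hLK (by omega) hw.2 with h' | h'
      · left; exact ⟨hw.1, h'⟩
      · right; exact ⟨hw.1, h'⟩
  have h4 := (Finset.card_le_card h3).trans ((Finset.card_union_le _ _).trans
    (Nat.add_le_add_right (Finset.card_union_le _ _) _))
  omega

open scoped Classical in
/-- Chebyshev. -/
theorem cheb (N : ℕ) (L : ℤ) (hL : 0 ≤ L) :
    (((SawSet N).filter (fun w => L ≤ |(w N).1|)).card : ℤ) * L ^ 2 ≤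
      ∑ w ∈ SawSet N, (w N).1 ^ 2 := by
  calc (((SawSet N).filter (fun w => L ≤ |(w N).1|)).card : ℤ) * L ^ 2
      = ∑ w ∈ (SawSet N).filter (fun w => L ≤ |(w N).1|), L ^ 2 := by
        rw [Finset.sum_const, nsmul_eq_mul]
    _ ≤ ∑ w ∈ (SawSet N).filter (fun w => L ≤ |(w N).1|), (w N).1 ^ 2 := by
        refine Finset.sum_le_sum (fun w hw => ?_)
        rw [Finset.mem_filter] at hw
        rw [← sq_abs (w N).1]
        exact pow_le_pow_left₀ hL hw.2 2
    _ ≤ ∑ w ∈ SawSet N, (w N).1 ^ 2 :=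
        Finset.sum_le_sum_of_subset_of_nonneg (Finset.filter_subset _ _)
          (fun w _ _ => sq_nonneg _)

end Pool.Agent.H977R2
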