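import Pool.Agent.H977R2.Count
import Pool.Agent.H977R2.Comb
import Pool.Agent.H977R2.Final

/-!
The key estimate: the number of walks reaching the column `K`.
-/

namespace Pool.Agent.H977R2

open scoped Classical in
/-- Total number of foldable cut levels of walks with end point beyond the column `K`. -/
theorem sum_J_le (N : ℕ) (K L : ℤ) (s n0 : ℕ) (hL0 : 0 ≤ L) :
    ∑ w ∈ (SawSet N).filter (fun w => K ≤ (w N).1), (Jset N L w).card ≤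
      n0 * ((SawSet N).filter (fun w => K - 2 * s * L ≤ (w N).1)).card +
      ((SawSet N).filter (fun w => K ≤ (w N).1 ∧ n0 ≤ (Jset N L w).card)).card * (N + 1) := by
  have h1 : ∀ w ∈ (SawSet N).filter (fun w => K ≤ (w N).1), (Jset N L w).card ≤
      n0 + (if n0 ≤ (Jset N L w).card then (N + 1) else 0) := by
    intro w _
    split_ifs with h
    · have h2 : (Jset N L w).card ≤ N + 1 := by
        refine (Finset.card_filter_le _ _).trans ?_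
        rw [Int.card_Icc]
        omega
      omega
    · omega
  refine (Finset.sum_le_sum h1).trans ?_
  rw [Finset.sum_add_distrib, Finset.sum_const, smul_eq_mul, ← Finset.sum_filter,
    Finset.sum_const, smul_eq_mul, Finset.filter_filter, mul_comm n0]
  have h2 : ((SawSet N).filter (fun w => K ≤ (w N).1)).card ≤
      ((SawSet N).filter (fun w => K - 2 * s * L ≤ (w N).1)).card := by
    refine Finset.card_le_card (fun w hw => ?_)
    rw [Finset.mem_filter] at hw ⊢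
    refine ⟨hw.1, ?_⟩
    have : 0 ≤ 2 * (s : ℤ) * L := by positivity
    omega
  have h3 := Nat.mul_le_mul_right n0 h2
  omega

theorem key : Key := by
  classical
  intro ε hε
  -- parameters
  obtain ⟨b, hb⟩ : ∃ b : ℕ, 2 / ε < b := exists_nat_gt _
  obtain ⟨s, hs⟩ : ∃ s : ℕ, 3 / ε < s := exists_nat_gt _
  have hb0 : 0 < b := by
    have : (0 : ℝ) < b := lt_trans (by positivity) hb
    exact_mod_cast this
  have hs0 : 1 ≤ s := by
    have : (0 : ℝ) < s := lt_trans (by positivity) hs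
    exact_mod_cast this
  have hbε : (1 : ℝ) / b ≤ ε / 2 := by
    rw [div_lt_iff₀ hε] at hb
    rw [div_le_iff₀ (by exact_mod_cast hb0)]
    linarith
  have hsε : 3 ≤ ε * s := by
    rw [div_lt_iff₀ hε] at hs
    linarith
  obtain ⟨Λ, θ, hΛ, hθ, hθΛ, hcomb⟩ := comb_lemma s b
  have hΛ' : (2 : ℝ) ≤ Λ := by exact_mod_cast hΛ
  obtain ⟨C₁, hC₁⟩ : ∃ C₁ : ℝ, C₁ = 4 * Λ ^ (s + 1) * (2 * Λ) ^ (2 * s) := ⟨_, rfl⟩
  have hC₁0 : 0 ≤ C₁ := by rw [hC₁]; positivity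
  refine ⟨8 * (Λ + 2 + C₁) + (4 * s + 4) ^ 2, ?_⟩
  intro N K hN hK
  have hNr : (1 : ℝ) ≤ N := by exact_mod_cast hN
  have hNpos : (0 : ℝ) < N := by linarith
  have hKr : (1 : ℝ) ≤ K := by exact_mod_cast hK
  -- T
  obtain ⟨T, hT⟩ : ∃ T, T = Nat.log Λ N + 1 := ⟨_, rfl⟩
  have hTlt : N < Λ ^ T := by rw [hT]; exact Nat.lt_pow_succ_log_self (by omega) N
  have hTle : Λ ^ T ≤ Λ * N := by
    rw [hT, pow_succ, mul_comm]
    exact Nat.mul_le_mul_left _ (Nat.pow_log_le_self Λ (by omega))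
  have hTN : T ≤ 2 * N := by
    have : Nat.log Λ N ≤ N := Nat.log_le_self Λ N
    omega
  -- θ^T
  have hθT : ((θ ^ T : ℕ) : ℝ) ≤ Λ * (N : ℝ) ^ (ε / 2) := by
    have h1 : ((θ ^ T : ℕ) : ℝ) ^ b ≤ (Λ : ℝ) * N := by
      have : (θ ^ T) ^ b ≤ Λ * N := by
        calc (θ ^ T) ^ b = (θ ^ b) ^ T := by rw [← pow_mul, ← pow_mul, mul_comm]
          _ ≤ Λ ^ T := Nat.pow_le_pow_left hθΛ T
          _ ≤ Λ * N := hTle
      exact_mod_cast this
    have h2 : ((θ ^ T : ℕ) : ℝ) = (((θ ^ T : ℕ) : ℝ) ^ b) ^ ((1 : ℝ) / b) := by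
      rw [← Real.rpow_natCast, ← Real.rpow_mul (by positivity)]
      rw [mul_one_div_cancel (by exact_mod_cast hb0.ne'), Real.rpow_one]
    rw [h2]
    calc (((θ ^ T : ℕ) : ℝ) ^ b) ^ ((1 : ℝ) / b) ≤ ((Λ : ℝ) * N) ^ ((1 : ℝ) / b) :=
          Real.rpow_le_rpow (by positivity) h1 (by positivity)
      _ = (Λ : ℝ) ^ ((1 : ℝ) / b) * (N : ℝ) ^ ((1 : ℝ) / b) :=
          Real.mul_rpow (by positivity) (by positivity)
      _ ≤ (Λ : ℝ) ^ (1 : ℝ) * (N : ℝ) ^ (ε / 2) := by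
          refine mul_le_mul ?_ ?_ (by positivity) (by positivity)
          · apply Real.rpow_le_rpow_of_exponent_le (by linarith)
            rw [div_le_one (by exact_mod_cast hb0)]
            exact_mod_cast hb0
          · exact Real.rpow_le_rpow_of_exponent_le hNr hbε
      _ = Λ * (N : ℝ) ^ (ε / 2) := by rw [Real.rpow_one]
  -- n0
  have hNε : (1 : ℝ) ≤ (N : ℝ) ^ ε := Real.one_le_rpow hNr hε.le
  have hNε2 : (N : ℝ) ^ (ε / 2) * (N : ℝ) ^ (ε / 2) = (N : ℝ) ^ ε := by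
    rw [← Real.rpow_add hNpos]; congr 1; ring
  have hNε2' : (1 : ℝ) ≤ (N : ℝ) ^ (ε / 2) := Real.one_le_rpow hNr (by positivity)
  obtain ⟨n0, hn0⟩ : ∃ n0 : ℕ, n0 = ⌈(Λ : ℝ) * (N : ℝ) ^ ε⌉₊ + 1 := ⟨_, rfl⟩
  have hn0lo : (Λ : ℝ) * (N : ℝ) ^ ε < n0 := by
    rw [hn0]; push_cast
    have := Nat.le_ceil ((Λ : ℝ) * (N : ℝ) ^ ε)
    linarith
  have hn0hi : (n0 : ℝ) ≤ (Λ + 2) * (N : ℝ) ^ ε := by
    rw [hn0]; push_cast
    have := Nat.ceil_lt_add_one (a := (Λ : ℝ) * (N : ℝ) ^ ε) (by positivity)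
    nlinarith
  have hθn0 : θ ^ T < n0 := by
    have : ((θ ^ T : ℕ) : ℝ) < n0 := by
      refine lt_of_le_of_lt hθT (lt_of_le_of_lt ?_ hn0lo)
      rw [← hNε2]
      nlinarith [hNε2']
    exact_mod_cast this
  -- L
  obtain ⟨L, hLdef⟩ : ∃ L : ℕ, L = K / (4 * s + 4) := ⟨_, rfl⟩
  have hL1 : L * (4 * s + 4) ≤ K := by rw [hLdef]; exact Nat.div_mul_le_self K _
  have hL2 : K < (L + 1) * (4 * s + 4) := by
    rw [hLdef]
    have h3 := Nat.div_add_mod K (4 * s + 4)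
    have h4 := Nat.mod_lt K (show 0 < 4 * s + 4 by omega)
    nlinarith
  have hL3 : 3 * L ≤ K := by nlinarith
  have hLK : L < K := by nlinarith
  -- the main counting inputs
  have c1 := ext_card_le N K L (by positivity) (by exact_mod_cast hLK)
  have c2 := sum_J_le N K L s n0 (by positivity)
  have c3 := count_big N K L Λ θ s T n0 (by exact_mod_cast hL3) hs0 hΛ (by exact_mod_cast hTlt)
    hθn0 (fun J hJ hJ' => hcomb T J hJ hJ')
  have c4 := cheb N ((L : ℤ) + 1) (by positivity)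
  have c5 := cheb N ((K : ℤ) - 2 * s * L) (by
    have : (2 * s * L : ℤ) ≤ K := by
      have : 2 * s * L ≤ K := by nlinarith
      exact_mod_cast this
    omega)
  have c6 : ((SawSet N).filter (fun w => (K : ℤ) - 2 * s * L ≤ (w N).1)).card ≤
      ((SawSet N).filter (fun w => (K : ℤ) - 2 * s * L ≤ |(w N).1|)).card := by
    refine Finset.card_le_card (fun w hw => ?_)
    rw [Finset.mem_filter] at hw ⊢
    exact ⟨hw.1, hw.2.trans (le_abs_self _)⟩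
  have c7 : ∑ w ∈ SawSet N, (w N).1 ^ 2 ≤ endSum N := by
    unfold endSum
    refine Finset.sum_le_sum (fun w _ => ?_)
    nlinarith [sq_nonneg (w N).2]
  have c0 : R N K = ((SawSet N).filter (fun w => ∃ i, i ≤ N ∧ (K : ℤ) ≤ (w i).1)).card := by
    unfold R
    congr
  -- abbreviations
  generalize hX1 : ((SawSet N).filter (fun w => (K : ℤ) - 2 * s * L ≤ (w N).1)).card = B' at *
  generalize hX2 : ((SawSet N).filter (fun w => (K : ℤ) ≤ (w N).1 ∧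
    n0 ≤ (Jset N L w).card)).card = Bb at *
  generalize hX3 : ∑ w ∈ (SawSet N).filter (fun w => (K : ℤ) ≤ (w N).1),
    (Jset N L w).card = SJ at *
  generalize hX4 : ((SawSet N).filter (fun w => (L : ℤ) + 1 ≤ |(w N).1|)).card = F at *
  generalize hX5 : ((SawSet N).filter (fun w => (K : ℤ) - 2 * s * L ≤ |(w N).1|)).card = G at *
  rw [← c0] at c1
  have hE0 : (0 : ℝ) ≤ endSum N := by exact_mod_cast endSum_nonneg N
  -- real versions
  have r1 : (R N K : ℝ) ≤ 2 * SJ + F := by exact_mod_cast c1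
  have r2 : (SJ : ℝ) ≤ n0 * B' + Bb * (N + 1) := by exact_mod_cast c2
  have r3 : (Bb : ℝ) * (n0 : ℝ) ^ (2 * s) ≤
      T * ((Λ : ℝ) ^ (T + s) * (2 * Λ * (θ : ℝ) ^ T) ^ (2 * s) * B') := by exact_mod_cast c3
  have r4 : (F : ℝ) * ((L : ℝ) + 1) ^ 2 ≤ endSum N := by
    have := c4.trans c7
    exact_mod_cast this
  have r5 : (B' : ℝ) * ((K : ℝ) - 2 * s * L) ^ 2 ≤ endSum N := by
    have h1 := c5.trans c7
    have h2 : (G : ℝ) * ((K : ℝ) - 2 * s * L) ^ 2 ≤ endSum N := by exact_mod_cast h1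
    have h3 : (B' : ℝ) ≤ G := by exact_mod_cast c6
    nlinarith [sq_nonneg ((K : ℝ) - 2 * s * L)]
  -- Bb is small
  have r3' : (Bb : ℝ) * (N + 1) ≤ C₁ * B' := by
    have e1 : ((Λ : ℝ) ^ (T + s)) ≤ Λ ^ (s + 1) * N := by
      have : (Λ : ℝ) ^ T ≤ Λ * N := by exact_mod_cast hTle
      calc (Λ : ℝ) ^ (T + s) = Λ ^ T * Λ ^ s := pow_add _ _ _
        _ ≤ (Λ * N) * Λ ^ s := by gcongr
        _ = Λ ^ (s + 1) * N := by ring
    have e2 : (2 * Λ * (θ : ℝ) ^ T) ^ (2 * s) ≤ (2 * Λ) ^ (2 * s) *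
        (Λ ^ (2 * s) * (N : ℝ) ^ (ε * s)) := by
      have h1 : (θ : ℝ) ^ T ≤ Λ * (N : ℝ) ^ (ε / 2) := by exact_mod_cast hθT
      have h2 : ((N : ℝ) ^ (ε / 2)) ^ (2 * s) = (N : ℝ) ^ (ε * s) := by
        rw [← Real.rpow_natCast, ← Real.rpow_mul hNpos.le]
        congr 1; push_cast; ring
      calc (2 * Λ * (θ : ℝ) ^ T) ^ (2 * s) ≤ (2 * Λ * (Λ * (N : ℝ) ^ (ε / 2))) ^ (2 * s) := by
            gcongr
        _ = (2 * Λ) ^ (2 * s) * (Λ ^ (2 * s) * ((N : ℝ) ^ (ε / 2)) ^ (2 * s)) := by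
            rw [mul_pow, mul_pow (Λ : ℝ)]
        _ = _ := by rw [h2]
    have e3 : (Λ : ℝ) ^ (2 * s) * (N : ℝ) ^ (2 * (ε * s)) ≤ (n0 : ℝ) ^ (2 * s) := by
      have h2 : ((N : ℝ) ^ ε) ^ (2 * s) = (N : ℝ) ^ (2 * (ε * s)) := by
        rw [← Real.rpow_natCast, ← Real.rpow_mul hNpos.le]
        congr 1; push_cast; ring
      rw [← h2, ← mul_pow]
      exact pow_le_pow_left₀ (by positivity) hn0lo.le _
    have e4 : (N : ℝ) ^ (2 * (ε * s)) = (N : ℝ) ^ (ε * s) * (N : ℝ) ^ (ε * s) := by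
      rw [← Real.rpow_add hNpos]; congr 1; ring
    have e5 : (N : ℝ) ^ 3 ≤ (N : ℝ) ^ (ε * s) := by
      rw [← Real.rpow_natCast]
      exact Real.rpow_le_rpow_of_exponent_le hNr (by push_cast; linarith)
    have e6 : (T : ℝ) ≤ 2 * N := by exact_mod_cast hTN
    obtain ⟨y, hy⟩ : ∃ y, y = (N : ℝ) ^ (ε * s) := ⟨_, rfl⟩
    have hy0 : 0 < y := by rw [hy]; positivity
    rw [e4, ← hy] at e3
    rw [← hy] at e2 e5
    have hΛs : (0 : ℝ) < (Λ : ℝ) ^ (2 * s) := by positivity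
    -- combine
    have f1 : (Bb : ℝ) * (Λ ^ (2 * s) * (y * y)) ≤
        (2 * N) * ((Λ ^ (s + 1) * N) * ((2 * Λ) ^ (2 * s) * (Λ ^ (2 * s) * y)) * B') := by
      calc (Bb : ℝ) * (Λ ^ (2 * s) * (y * y)) ≤ Bb * (n0 : ℝ) ^ (2 * s) := by gcongr
        _ ≤ T * ((Λ : ℝ) ^ (T + s) * (2 * Λ * (θ : ℝ) ^ T) ^ (2 * s) * B') := r3
        _ ≤ _ := by gcongr
    have f2 : (Bb : ℝ) * y ≤ (2 * N) * ((Λ ^ (s + 1) * N) * ((2 * Λ) ^ (2 * s)) * B') := by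
      have : (Bb : ℝ) * y * (Λ ^ (2 * s) * y) ≤
          (2 * N) * ((Λ ^ (s + 1) * N) * ((2 * Λ) ^ (2 * s)) * B') * (Λ ^ (2 * s) * y) := by
        calc (Bb : ℝ) * y * (Λ ^ (2 * s) * y) = (Bb : ℝ) * (Λ ^ (2 * s) * (y * y)) := by ring
          _ ≤ _ := f1
          _ = _ := by ring
      exact le_of_mul_le_mul_right this (by positivity)
    have f3 : (Bb : ℝ) * (N ^ 3) ≤ N ^ 2 * (2 * (Λ ^ (s + 1) * ((2 * Λ) ^ (2 * s))) * B') := by
      calc (Bb : ℝ) * (N ^ 3) ≤ Bb * y := by gcongr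
        _ ≤ _ := f2
        _ = _ := by ring
    have f4 : (Bb : ℝ) * N ≤ 2 * (Λ ^ (s + 1) * ((2 * Λ) ^ (2 * s))) * B' := by
      have : (N : ℝ) ^ 2 * ((Bb : ℝ) * N) ≤
          N ^ 2 * (2 * (Λ ^ (s + 1) * ((2 * Λ) ^ (2 * s))) * B') := by
        calc (N : ℝ) ^ 2 * ((Bb : ℝ) * N) = Bb * N ^ 3 := by ring
          _ ≤ _ := f3
      exact le_of_mul_le_mul_left this (by positivity)
    have f5 : (Bb : ℝ) * (N + 1) ≤ 2 * (Bb * N) := by
      have : (0 : ℝ) ≤ Bb := by positivity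
      nlinarith
    rw [hC₁]
    calc (Bb : ℝ) * (N + 1) ≤ 2 * (Bb * N) := f5
      _ ≤ 2 * (2 * (Λ ^ (s + 1) * ((2 * Λ) ^ (2 * s))) * B') := by linarith
      _ = _ := by ring
  have r6 : (SJ : ℝ) ≤ (Λ + 2 + C₁) * (N : ℝ) ^ ε * B' := by
    have hB0 : (0 : ℝ) ≤ B' := by positivity
    have g1 : (n0 : ℝ) * B' ≤ (Λ + 2) * (N : ℝ) ^ ε * B' := by gcongr
    have g2 : C₁ * B' ≤ C₁ * (N : ℝ) ^ ε * B' := by
      have : C₁ * 1 ≤ C₁ * (N : ℝ) ^ ε := by gcongr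
      nlinarith
    calc (SJ : ℝ) ≤ n0 * B' + Bb * (N + 1) := r2
      _ ≤ (Λ + 2) * (N : ℝ) ^ ε * B' + C₁ * (N : ℝ) ^ ε * B' := by linarith
      _ = _ := by ring
  -- B' and F in terms of the second moment
  have hLr1 : (L : ℝ) * (4 * s + 4) ≤ K := by exact_mod_cast hL1
  have hLr2 : (K : ℝ) ≤ (L + 1) * (4 * s + 4) := by exact_mod_cast hL2.le
  have hLr0 : (0 : ℝ) ≤ L := by positivity
  have r7 : (B' : ℝ) * (K : ℝ) ^ 2 ≤ 4 * endSum N := by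
    have h1 : (K : ℝ) / 2 ≤ (K : ℝ) - 2 * s * L := by nlinarith
    have h2 : ((K : ℝ) / 2) ^ 2 ≤ ((K : ℝ) - 2 * s * L) ^ 2 :=
      pow_le_pow_left₀ (by positivity) h1 2
    have h3 : (B' : ℝ) * ((K : ℝ) / 2) ^ 2 ≤ endSum N := by
      refine le_trans ?_ r5
      gcongr
    nlinarith
  have r8 : (F : ℝ) * (K : ℝ) ^ 2 ≤ (4 * s + 4) ^ 2 * endSum N := by
    have h1 : (K : ℝ) ^ 2 ≤ (((L : ℝ) + 1) * (4 * (s : ℝ) + 4)) ^ 2 :=
      pow_le_pow_left₀ (by positivity) hLr2 2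
    calc (F : ℝ) * (K : ℝ) ^ 2 ≤ (F : ℝ) * (((L : ℝ) + 1) * (4 * (s : ℝ) + 4)) ^ 2 := by gcongr
      _ = (4 * (s : ℝ) + 4) ^ 2 * ((F : ℝ) * ((L : ℝ) + 1) ^ 2) := by ring
      _ ≤ _ := by gcongr
  have hK2 : (0 : ℝ) < (K : ℝ) ^ 2 := by positivity
  rw [div_mul_eq_mul_div, le_div_iff₀ hK2]
  have hM0 : (0 : ℝ) ≤ Λ + 2 + C₁ := by positivity
  calc (R N K : ℝ) * (K : ℝ) ^ 2 ≤ (2 * SJ + F) * (K : ℝ) ^ 2 := by gcongr
    _ = 2 * (SJ * (K : ℝ) ^ 2) + F * (K : ℝ) ^ 2 := by ring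
    _ ≤ 2 * ((Λ + 2 + C₁) * (N : ℝ) ^ ε * B' * (K : ℝ) ^ 2) + (4 * s + 4) ^ 2 * endSum N := by
        gcongr
    _ = 2 * ((Λ + 2 + C₁) * (N : ℝ) ^ ε * (B' * (K : ℝ) ^ 2)) + (4 * s + 4) ^ 2 * endSum N := by
        ring
    _ ≤ 2 * ((Λ + 2 + C₁) * (N : ℝ) ^ ε * (4 * endSum N)) +
        (4 * s + 4) ^ 2 * ((N : ℝ) ^ ε * endSum N) := by
        gcongr
        nlinarith
    _ = _ := by ring

end Pool.Agent.H977R2
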