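import Pool.Agent.H977R2.Defs

/-!
Parity of the number of edges above a point: a discrete Jordan-curve substitute.
-/

namespace Pool.Agent.H977R2

/-- Indicator that the edge `p q` is horizontal, joins the columns `x-1` and `x`, and has
height bigger than `y`. -/
def eInd (p q : ℤ × ℤ) (x y : ℤ) : ZMod 2 :=
  if p.2 = q.2 ∧ y < p.2 ∧ ((p.1 = x - 1 ∧ q.1 = x) ∨ (p.1 = x ∧ q.1 = x - 1)) then 1 else 0

/-- Indicator that `p` lies in the column `x` above height `y`. -/
def sIn (p : ℤ × ℤ) (x y : ℤ) : ZMod 2 := if p.1 = x ∧ y < p.2 then 1 else 0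

theorem eInd_horiz {p q : ℤ × ℤ} (h : Adj p q) (x y : ℤ) (hp : p ≠ (x, y)) (hq : q ≠ (x, y)) :
    eInd p q x y + eInd p q (x + 1) y = sIn p x y + sIn q x y := by
  obtain ⟨p1, p2⟩ := p
  obtain ⟨q1, q2⟩ := q
  simp only [ne_eq, Prod.mk.injEq] at hp hq
  simp only [Adj, eInd, sIn] at *
  split_ifs <;> first | rfl | decide | (exfalso; omega)

theorem eInd_vert {p q : ℤ × ℤ} (x y : ℤ) (hp : p ≠ (x, y + 1)) (hq : q ≠ (x, y + 1)) :
    eInd p q x y = eInd p q x (y + 1) := by
  obtain ⟨p1, p2⟩ := p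
  obtain ⟨q1, q2⟩ := q
  simp only [ne_eq, Prod.mk.injEq] at hp hq
  simp only [eInd] at *
  split_ifs <;> first | rfl | decide | (exfalso; omega)

/-- Number mod 2 of edges of `γ[a..b]` between columns `x-1` and `x` above height `y`. -/
def U (γ : ℕ → ℤ × ℤ) (a b : ℕ) (x y : ℤ) : ZMod 2 :=
  ∑ i ∈ Finset.Ico a b, eInd (γ i) (γ (i + 1)) x y

theorem add_self_two (a : ZMod 2) : a + a = 0 := CharTwo.add_self_eq_zero a

theorem U_horiz (γ : ℕ → ℤ × ℤ) (a b : ℕ) (hab : a ≤ b) (x y : ℤ)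
    (hadj : ∀ i, a ≤ i → i < b → Adj (γ i) (γ (i + 1)))
    (hav : ∀ i, a ≤ i → i ≤ b → γ i ≠ (x, y)) :
    U γ a b x y + U γ a b (x + 1) y = sIn (γ a) x y + sIn (γ b) x y := by
  induction b, hab using Nat.le_induction with
  | base => simp [U, add_self_two]
  | succ b hab ih =>
    have ih' := ih (fun i h1 h2 => hadj i h1 (by omega)) (fun i h1 h2 => hav i h1 (by omega))
    have h1 := eInd_horiz (hadj b hab (by omega)) x y (hav b hab (by omega))
      (hav (b + 1) (by omega) le_rfl)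
    simp only [U] at *
    rw [Finset.sum_Ico_succ_top hab, Finset.sum_Ico_succ_top hab]
    have : ∀ A B c d s t u : ZMod 2, A + B = s + t → c + d = t + u → A + c + (B + d) = s + u := by
      decide
    exact this _ _ _ _ _ _ _ ih' h1

theorem U_vert (γ : ℕ → ℤ × ℤ) (a b : ℕ) (x y : ℤ)
    (hav : ∀ i, a ≤ i → i ≤ b → γ i ≠ (x, y + 1)) :
    U γ a b x y = U γ a b x (y + 1) := by
  unfold U
  refine Finset.sum_congr rfl (fun i hi => ?_)
  rw [Finset.mem_Ico] at hi
  exact eInd_vert x y (hav i hi.1 (by omega)) (hav (i + 1) (by omega) (by omega))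

theorem eq_of_add_zero (a b : ZMod 2) (h : a + b = 0) : a = b := by
  revert a b; decide

/-- The parity is constant along a path avoiding `γ` and staying in columns which do not
contain endpoints of `γ`. -/
theorem U_const (γ δ : ℕ → ℤ × ℤ) (a b p q : ℕ) (lo hi : ℤ) (hab : a ≤ b) (hpq : p ≤ q)
    (hadj : ∀ i, a ≤ i → i < b → Adj (γ i) (γ (i + 1)))
    (hδ : ∀ k, p ≤ k → k < q → Adj (δ k) (δ (k + 1)))
    (hcol : ∀ k, p ≤ k → k ≤ q → lo ≤ (δ k).1 ∧ (δ k).1 ≤ hi)
    (hav : ∀ k, p ≤ k → k ≤ q → ∀ i, a ≤ i → i ≤ b → γ i ≠ δ k)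
    (ha : (γ a).1 < lo ∨ hi ≤ (γ a).1) (hb : (γ b).1 < lo ∨ hi ≤ (γ b).1) :
    U γ a b (δ p).1 (δ p).2 = U γ a b (δ q).1 (δ q).2 := by
  induction q, hpq using Nat.le_induction with
  | base => rfl
  | succ q hpq ih =>
    rw [ih (fun k h1 h2 => hδ k h1 (by omega)) (fun k h1 h2 => hcol k h1 (by omega))
      (fun k h1 h2 => hav k h1 (by omega))]
    have h0 := hδ q hpq (by omega)
    have hc := hcol q hpq (by omega)
    have hc' := hcol (q + 1) (by omega) le_rfl
    have av := hav q hpq (by omega)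
    have av' := hav (q + 1) (by omega) le_rfl
    -- horizontal relation
    have key : ∀ x y : ℤ, lo ≤ x → x + 1 ≤ hi → (∀ i, a ≤ i → i ≤ b → γ i ≠ (x, y)) →
        U γ a b x y = U γ a b (x + 1) y := by
      intro x y h1 h2 h3
      apply eq_of_add_zero
      rw [U_horiz γ a b hab x y hadj h3]
      have e1 : sIn (γ a) x y = 0 := by
        unfold sIn; rw [if_neg]; omega
      have e2 : sIn (γ b) x y = 0 := by
        unfold sIn; rw [if_neg]; omega
      rw [e1, e2, add_zero]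
    have hh : ∀ (P Q : ℤ × ℤ), Adj P Q → lo ≤ P.1 → P.1 ≤ hi → lo ≤ Q.1 → Q.1 ≤ hi →
        (∀ i, a ≤ i → i ≤ b → γ i ≠ P) → (∀ i, a ≤ i → i ≤ b → γ i ≠ Q) →
        U γ a b P.1 P.2 = U γ a b Q.1 Q.2 := by
      rintro ⟨x, y⟩ ⟨x', y'⟩ hA h1 h2 h3 h4 avP avQ
      simp only at *
      rcases hA with ⟨e1, e2⟩ | ⟨e1, e2⟩ | ⟨e1, e2⟩ | ⟨e1, e2⟩
      · simp only at e1 e2
        subst e1 e2
        exact key x y' h1 h4 avP
      · simp only at e1 e2
        subst e2
        have := key x' y' h3 (by omega) avQ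
        have e : x' + 1 = x := by omega
        rw [e] at this
        exact this.symm
      · simp only at e1 e2
        subst e1 e2
        exact U_vert γ a b x' y avQ
      · simp only at e1 e2
        subst e1
        have e : y' + 1 = y := by omega
        have := U_vert γ a b x' y' (by rw [e]; exact avP)
        rw [e] at this
        exact this.symm
    exact hh _ _ h0 hc.1 hc.2 hc'.1 hc'.2 av av'

end Pool.Agent.H977R2
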