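import Pool.Agent.H977R2.Parity

/-!
Cut levels, folds and Z-folds of planar self-avoiding walks, and the planarity argument
showing that a Z-fold at two foldable cut levels is self-avoiding.
-/

namespace Pool.Agent.H977R2

/-- `m` is a cut level of the walk `w`, crossed (only) at time `τ`. -/
def Cut (N : ℕ) (w : ℕ → ℤ × ℤ) (m : ℤ) (τ : ℕ) : Prop :=
  τ < N ∧ (∀ i, i ≤ τ → (w i).1 ≤ m) ∧ (∀ i, τ < i → m + 1 ≤ (w i).1)

/-- Reflect the part of the walk after time `τ` in the line `x = m`. -/
def fl (w : ℕ → ℤ × ℤ) (m : ℤ) (τ : ℕ) : ℕ → ℤ × ℤ :=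
  fun i => if i ≤ τ then w i else (2 * m - (w i).1, (w i).2)

/-- The Z-fold: keep `[0,t]`, reflect `(t,t']` in `x = j`, translate the rest by `-2(j'-j)`. -/
def zf (w : ℕ → ℤ × ℤ) (j j' : ℤ) (t t' : ℕ) : ℕ → ℤ × ℤ :=
  fun i => if i ≤ t then w i else if i ≤ t' then (2 * j - (w i).1, (w i).2)
    else ((w i).1 - 2 * (j' - j), (w i).2)

/-- The walk arrives from below at time `t`. -/
def Up (w : ℕ → ℤ × ℤ) (t : ℕ) : Prop := 1 ≤ t ∧ w (t - 1) = ((w t).1, (w t).2 - 1)

theorem Cut.spec {N : ℕ} {w : ℕ → ℤ × ℤ} {m : ℤ} {τ : ℕ} (hw : Saw N w) (h : Cut N w m τ) :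
    (w τ).1 = m ∧ (w (τ + 1)).1 = m + 1 ∧ (w (τ + 1)).2 = (w τ).2 := by
  obtain ⟨h1, h2, h3⟩ := h
  have a := hw.adj τ h1
  have b := h2 τ le_rfl
  have c := h3 (τ + 1) (by omega)
  unfold Adj at a
  omega

/-- Cut times are monotone in the cut level. -/
theorem Cut.lt {N : ℕ} {w : ℕ → ℤ × ℤ} {m m' : ℤ} {τ τ' : ℕ} (hw : Saw N w)
    (h : Cut N w m τ) (h' : Cut N w m' τ') (hm : m < m') : τ < τ' := by
  by_contra hcon
  have h1 := (h.spec hw)
  have h2 := (h'.spec hw)
  have := h.2.1 τ' (by omega)
  omega

theorem Cut.le {N : ℕ} {w : ℕ → ℤ × ℤ} {m m' : ℤ} {τ τ' : ℕ} (hw : Saw N w)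
    (h : Cut N w m τ) (h' : Cut N w m' τ') (hm : m ≤ m') : τ ≤ τ' := by
  by_contra hcon
  have h1 := (h.spec hw)
  have h2 := (h'.spec hw)
  have := h'.2.2 τ (by omega)
  omega

theorem fl_le {w : ℕ → ℤ × ℤ} {m : ℤ} {τ i : ℕ} (h : i ≤ τ) : fl w m τ i = w i := by
  simp [fl, h]

theorem fl_gt {w : ℕ → ℤ × ℤ} {m : ℤ} {τ i : ℕ} (h : τ < i) :
    fl w m τ i = (2 * m - (w i).1, (w i).2) := by
  simp [fl, Nat.not_le.mpr h]

theorem zf_le {w : ℕ → ℤ × ℤ} {j j' : ℤ} {t t' i : ℕ} (h : i ≤ t) : zf w j j' t t' i = w i := by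
  simp [zf, h]

theorem zf_mid {w : ℕ → ℤ × ℤ} {j j' : ℤ} {t t' i : ℕ} (h : t < i) (h' : i ≤ t') :
    zf w j j' t t' i = (2 * j - (w i).1, (w i).2) := by
  simp [zf, Nat.not_le.mpr h, h']

theorem zf_gt {w : ℕ → ℤ × ℤ} {j j' : ℤ} {t t' i : ℕ} (h : t < i) (h' : t' < i) :
    zf w j j' t t' i = ((w i).1 - 2 * (j' - j), (w i).2) := by
  simp [zf, Nat.not_le.mpr h, Nat.not_le.mpr h']

theorem eInd_eq_zero {p q : ℤ × ℤ} {x y : ℤ} (h : p.1 ≠ x ∧ q.1 ≠ x ∨ p.1 ≠ x - 1 ∧ q.1 ≠ x - 1) :
    eInd p q x y = 0 := by
  unfold eInd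
  rw [if_neg]
  omega

theorem U_eq_zero {γ : ℕ → ℤ × ℤ} {a b : ℕ} {x y : ℤ}
    (h : ∀ i, a ≤ i → i < b →
      ((γ i).1 ≠ x ∧ (γ (i + 1)).1 ≠ x) ∨ ((γ i).1 ≠ x - 1 ∧ (γ (i + 1)).1 ≠ x - 1)) :
    U γ a b x y = 0 := by
  unfold U
  refine Finset.sum_eq_zero (fun i hi => ?_)
  rw [Finset.mem_Ico] at hi
  exact eInd_eq_zero (h i hi.1 hi.2)

theorem U_split (γ : ℕ → ℤ × ℤ) {a b c : ℕ} (hab : a ≤ b) (hbc : b ≤ c) (x y : ℤ) :
    U γ a c x y = U γ a b x y + U γ b c x y := by
  unfold U
  rw [Finset.sum_Ico_consecutive _ hab hbc]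

/-- The planarity lemma: the initial part of the walk and the translated final part are
disjoint. -/
theorem planar {N : ℕ} {w : ℕ → ℤ × ℤ} {j j' c d : ℤ} {t t' tc td : ℕ} (hw : Saw N w)
    (hj : Cut N w j t) (hj' : Cut N w j' t') (hjj : j < j')
    (Fj : Saw N (fl w j t)) (Fj' : Saw N (fl w j' t')) (oj : Up w t) (oj' : Up w t')
    (hc : Cut N w c tc) (hcm : c < 2 * j - j') (hd : Cut N w d td) (hd' : 2 * j' - j ≤ d)
    (e1 : 2 * j - c ≤ (w N).1) (e2 : d ≤ 2 * j') :
    ∀ i k, i ≤ t → t' < k → k ≤ N → w i ≠ ((w k).1 - 2 * (j' - j), (w k).2) := by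
  intro i k hi hk hkN heq
  have htt' : t < t' := hj.lt hw hj' hjj
  have htN : t' < N := hj'.1
  have sj := hj.spec hw
  have sj' := hj'.spec hw
  have hx0 : (w 0).1 = 0 := by rw [hw.zero]
  have hj0 : 0 ≤ j := by have := hj.2.1 0 (by omega); omega
  -- the reflected walk
  obtain ⟨γ, hγ⟩ : ∃ γ : ℕ → ℤ × ℤ, ∀ i, γ i = (2 * j - (w i).1, (w i).2) := ⟨_, fun _ => rfl⟩
  obtain ⟨V, hV⟩ : ∃ V : ℕ → ℤ × ℤ, ∀ i, V i = ((w i).1 - 2 * (j' - j), (w i).2) :=
    ⟨_, fun _ => rfl⟩
  have hγadj : ∀ i, i < N → Adj (γ i) (γ (i + 1)) := by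
    intro i hi
    have := hw.adj i hi
    rw [hγ, hγ]
    unfold Adj at *
    simp only
    omega
  have hVadj : ∀ i, i < N → Adj (V i) (V (i + 1)) := by
    intro i hi
    have := hw.adj i hi
    rw [hV, hV]
    unfold Adj at *
    simp only
    omega
  -- the case i = t
  rcases Nat.lt_or_ge i t with hit | hit
  swap
  · have hit : i = t := le_antisymm hi hit
    subst hit
    have h1 : fl w j' t' i = fl w j' t' k := by
      rw [fl_le (by omega), fl_gt hk, heq, Prod.mk.injEq]
      have := congrArg Prod.fst heq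
      simp only at this
      refine ⟨by omega, rfl⟩
    have := Fj'.inj i k (by omega) hkN h1
    omega
  have hxe : (w i).1 = (w k).1 - 2 * (j' - j) := congrArg Prod.fst heq
  have hxk := hj'.2.2 k hk
  have hxi := hj.2.1 i hi
  -- claim 1
  have hitc : tc < i := by
    by_contra hcon
    have := hc.2.1 i (by omega)
    omega
  have c1 : U γ t N (w i).1 (w i).2 = 1 := by
    have h1 := U_const γ w t N i (t - 1) (c + 1) j (by omega) (by omega)
      (fun l _ h2 => hγadj l h2) (fun l _ h2 => hw.adj l (by omega))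
      (fun l h1 h2 => ⟨hc.2.2 l (by omega), hj.2.1 l (by omega)⟩)
      (by
        intro l h1 h2 n h3 h4 h5
        rcases Nat.eq_or_lt_of_le h3 with h6 | h6
        · subst h6
          have : w t = w l := by
            rw [← h5, hγ, sj.1]
            ext <;> simp [sj.1]; omega
          have := hw.inj t l (by omega) (by omega) this
          omega
        · have : fl w j t n = fl w j t l := by
            rw [fl_gt h6, fl_le (by omega), ← hγ, h5]
          have := Fj.inj n l h4 (by omega) this
          omega)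
      (by rw [hγ]; simp only; omega)
      (by rw [hγ]; simp only; omega)
    rw [h1, oj.2, sj.1]
    simp only
    -- evaluate at the point just below `w t`
    rw [U_split γ (a := t) (b := t + 1) (c := N) (by omega) (by omega)]
    have h2 : U γ (t + 1) N j ((w t).2 - 1) = 0 := by
      apply U_eq_zero
      intro l h3 h4
      left
      rw [hγ, hγ]
      have := hj.2.2 l (by omega)
      have := hj.2.2 (l + 1) (by omega)
      simp only
      omega
    rw [h2, add_zero]
    unfold U
    rw [Nat.Ico_succ_singleton, Finset.sum_singleton, hγ, hγ]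
    unfold eInd
    rw [if_pos]
    simp only
    omega
  -- claim 2
  have hktd : k ≤ td := by
    by_contra hcon
    have := hd.2.2 k (by omega)
    omega
  have c2 : U γ 0 t' (V k).1 (V k).2 = 0 := by
    have h1 := U_const γ V 0 t' (t' + 1) k (2 * j - j' + 1) (d - 2 * (j' - j)) (by omega) hk
      (fun l _ h2 => hγadj l (by omega)) (fun l _ h2 => hVadj l (by omega))
      (by
        intro l h1 h2
        have h3 := hj'.2.2 l (by omega)
        have h4 := hd.2.1 l (by omega)
        rw [hV]
        simp only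
        omega)
      (by
        intro l h1 h2 n h3 h4 h5
        have h6 : fl w j' t' n = fl w j' t' l := by
          rw [fl_le h4, fl_gt (by omega)]
          rw [hγ, hV, Prod.mk.injEq] at h5
          ext
          · simp only; omega
          · simp only; exact h5.2
        have := Fj'.inj n l (by omega) (by omega) h6
        omega)
      (by rw [hγ, hx0]; simp only; omega)
      (by rw [hγ, sj'.1]; simp only; omega)
    rw [← h1]
    have hV1 : V (t' + 1) = (2 * j - j' + 1, (w t').2) := by
      rw [hV, sj'.2.1, sj'.2.2]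
      ext <;> simp; omega
    rw [hV1]
    simp only
    have ht1 : t' - 1 + 1 = t' := by have := oj'.1; omega
    rw [U_split γ (a := 0) (b := t' - 1) (c := t') (by omega) (by omega)]
    have hγt' : γ t' = (2 * j - j', (w t').2) := by rw [hγ, sj'.1]
    have hγt1 : γ (t' - 1) = (2 * j - j', (w t').2 - 1) := by rw [hγ, oj'.2, sj'.1]
    have h2 : U γ (t' - 1) t' (2 * j - j' + 1) (w t').2 = 0 := by
      apply U_eq_zero
      intro l h3 h4
      have : l = t' - 1 := by omega
      subst this
      left
      rw [ht1, hγt', hγt1]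
      simp only
      omega
    rw [h2, add_zero]
    have h3 := U_horiz γ 0 (t' - 1) (by omega) (2 * j - j') (w t').2
      (fun l _ h2 => hγadj l (by omega))
      (by
        intro l h3 h4 h5
        rw [← hγt', hγ, hγ, Prod.mk.injEq] at h5
        have h6 : w l = w t' := by ext <;> omega
        have := hw.inj l t' (by omega) (by omega) h6
        omega)
    have h4 : U γ 0 (t' - 1) (2 * j - j') (w t').2 = 0 := by
      apply U_eq_zero
      intro l h3 h4
      right
      rw [hγ, hγ]
      have := hj'.2.1 l (by omega)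
      have := hj'.2.1 (l + 1) (by omega)
      simp only
      omega
    have h5 : sIn (γ 0) (2 * j - j') (w t').2 = 0 := by
      unfold sIn
      rw [if_neg]
      rw [hγ, hx0]
      simp only
      omega
    have h6 : sIn (γ (t' - 1)) (2 * j - j') (w t').2 = 0 := by
      unfold sIn
      rw [if_neg]
      rw [hγt1]
      simp only
      omega
    rw [h4, h5, h6, zero_add, zero_add] at h3
    exact h3
  -- claim 3
  have c3 : U γ t N (w i).1 (w i).2 = U γ 0 t' (w i).1 (w i).2 := by
    rw [U_split γ (a := t) (b := t') (c := N) (by omega) (by omega),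
      U_split γ (a := 0) (b := t) (c := t') (by omega) (by omega)]
    have h1 : U γ t' N (w i).1 (w i).2 = 0 := by
      apply U_eq_zero
      intro l h1 h2
      left
      rw [hγ, hγ]
      have h3 := hj'.2.2 (l + 1) (by omega)
      have h4 : j' ≤ (w l).1 := by
        rcases Nat.eq_or_lt_of_le h1 with h5 | h5
        · rw [← h5]; omega
        · have := hj'.2.2 l h5; omega
      simp only
      omega
    have h2 : U γ 0 t (w i).1 (w i).2 = 0 := by
      apply U_eq_zero
      intro l h1 h2
      right
      rw [hγ, hγ]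
      have := hj.2.1 l (by omega)
      have := hj.2.1 (l + 1) (by omega)
      simp only
      omega
    rw [h1, h2, add_zero, zero_add]
  have hVk : V k = w i := by rw [hV, ← heq]
  rw [hVk] at c2
  rw [c3, c2] at c1
  exact absurd c1 (by decide)

/-- The Z-fold at two foldable cut levels with barriers is self-avoiding. -/
theorem zf_saw {N : ℕ} {w : ℕ → ℤ × ℤ} {j j' c d : ℤ} {t t' tc td : ℕ} (hw : Saw N w)
    (hj : Cut N w j t) (hj' : Cut N w j' t') (hjj : j < j')
    (Fj : Saw N (fl w j t)) (Fj' : Saw N (fl w j' t')) (oj : Up w t) (oj' : Up w t')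
    (hc : Cut N w c tc) (hcm : c < 2 * j - j') (hd : Cut N w d td) (hd' : 2 * j' - j ≤ d)
    (e1 : 2 * j - c ≤ (w N).1) (e2 : d ≤ 2 * j') :
    Saw N (zf w j j' t t') := by
  have hP := planar hw hj hj' hjj Fj Fj' oj oj' hc hcm hd hd' e1 e2
  have htt' : t < t' := hj.lt hw hj' hjj
  have htN : t' < N := hj'.1
  have sj := hj.spec hw
  have sj' := hj'.spec hw
  constructor
  · rw [zf_le (by omega)]; exact hw.zero
  · intro i hi
    have ha := hw.adj i hi
    rcases lt_trichotomy i t with h | h | h
    · rw [zf_le (by omega), zf_le (by omega)]; exact ha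
    · subst h
      rw [zf_le (by omega), zf_mid (by omega) (by omega)]
      unfold Adj at *
      simp only
      omega
    · rcases lt_trichotomy i t' with h' | h' | h'
      · rw [zf_mid (by omega) (by omega), zf_mid (by omega) (by omega)]
        unfold Adj at *
        simp only
        omega
      · subst h'
        rw [zf_mid (by omega) (by omega), zf_gt (by omega) (by omega)]
        unfold Adj at *
        simp only
        omega
      · rw [zf_gt (by omega) (by omega), zf_gt (by omega) (by omega)]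
        unfold Adj at *
        simp only
        omega
  · -- injectivity
    have main : ∀ i k, i < k → k ≤ N → zf w j j' t t' i ≠ zf w j j' t t' k := by
      intro i k hik hk heq
      rcases Nat.lt_or_ge t i with hi | hi
      · rcases Nat.lt_or_ge t' i with hi' | hi'
        · rw [zf_gt (by omega) hi', zf_gt (by omega) (by omega), Prod.mk.injEq] at heq
          have : w i = w k := by ext <;> omega
          have := hw.inj i k (by omega) hk this
          omega
        · rcases Nat.lt_or_ge t' k with hk' | hk'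
          · rw [zf_mid hi hi', zf_gt (by omega) hk', Prod.mk.injEq] at heq
            have : fl w j' t' i = fl w j' t' k := by
              rw [fl_le hi', fl_gt hk']
              ext <;> simp only <;> omega
            have := Fj'.inj i k (by omega) hk this
            omega
          · rw [zf_mid hi hi', zf_mid (by omega) hk', Prod.mk.injEq] at heq
            have : w i = w k := by ext <;> omega
            have := hw.inj i k (by omega) hk this
            omega
      · rcases Nat.lt_or_ge t k with hk1 | hk1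
        · rcases Nat.lt_or_ge t' k with hk' | hk'
          · rw [zf_le hi, zf_gt hk1 hk'] at heq
            exact hP i k hi hk' hk heq
          · rw [zf_le hi, zf_mid hk1 hk'] at heq
            have : fl w j t i = fl w j t k := by
              rw [fl_le hi, fl_gt hk1, heq]
            have := Fj.inj i k (by omega) hk this
            omega
        · rw [zf_le hi, zf_le hk1] at heq
          have := hw.inj i k (by omega) hk heq
          omega
    intro i k hi hk heq
    rcases lt_trichotomy i k with h | h | h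
    · exact absurd heq (main i k h hk)
    · exact h
    · exact absurd heq.symm (main k i h hi)
  · intro i hi
    rw [zf_gt (by omega) (by omega), zf_gt (by omega) (by omega), hw.const i hi]

end Pool.Agent.H977R2
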